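import Pool.Agent.V1213.CH.Main

/-!
Fixed irrational phases; the reduction of all phases to arithmetic progressions.
-/

set_option autoImplicit false

open Finset Filter Topology

namespace Pool.Agent.V1213.CH

open Pool.Agent.Y842.PG
open Pool.Agent.Y304.U (sE ind ind_nonneg ind_le sE_nonneg)
open Pool.Agent.Y958.U (LZ)
open Pool.Agent.Y842.EL (LZ_eps LZ_mono LZ_union LZ_empty)
open Pool.Agent.Y842.PH (LZ_thick)

lemma LZ_bU {ι : Type} (s : Finset ι) (E : ι → Set ℕ) (h : ∀ i ∈ s, LZ (E i)) : LZ {N | ∃ i ∈ s, N ∈ E i} := by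
  classical
  induction s using Finset.induction_on with
  | empty =>
    refine LZ_mono ?_ LZ_empty
    rintro N ⟨i, hi, _⟩
    simp at hi
  | insert a s ha ih =>
    refine LZ_mono ?_ (LZ_union (h a (mem_insert_self _ _)) (ih fun i hi => h i (mem_insert_of_mem hi)))
    rintro N ⟨i, hi, hN⟩
    rcases mem_insert.1 hi with rfl | hi
    · exact Or.inl hN
    · exact Or.inr ⟨i, hi, hN⟩

lemma LZ_fin (M : ℕ) : LZ {N : ℕ | N < M} := by
  rw [LZ_eps]
  intro ε hε
  obtain ⟨X₀, h⟩ := Filter.eventually_atTop.1 ((Filter.tendsto_atTop.1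
    (Real.tendsto_log_atTop.comp tendsto_natCast_atTop_atTop)) ((M : ℝ) / ε))
  refine ⟨X₀, fun X hX => ?_⟩
  have h1 : (M : ℝ) / ε ≤ Real.log X := h X hX
  have h2 : sE {N : ℕ | N < M} X ≤ M := by
    classical
    rw [sE_eq]
    have h3 : ∑ N ∈ (Icc 1 X).filter (· ∈ {N : ℕ | N < M}), (1 : ℝ) / N ≤ ∑ N ∈ range M, (1 : ℝ) := by
      refine (sum_le_sum (f := fun N : ℕ => (1 : ℝ) / N) (g := fun _ => (1 : ℝ)) fun n hn => ?_).trans ?_
      · rw [mem_filter, mem_Icc] at hn
        have : (1 : ℝ) ≤ n := by exact_mod_cast hn.1.1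
        rw [div_le_one (by linarith)]
        exact this
      · refine sum_le_sum_of_subset_of_nonneg ?_ (fun _ _ _ => zero_le_one)
        intro n hn
        rw [mem_filter] at hn
        exact mem_range.2 hn.2
    simpa using h3
  rw [div_le_iff₀ hε] at h1
  linarith

theorem all_of_rat {r : ℕ} (hr : 1 ≤ r) (G : Fin r → ℕ → ℂ) (hCF : CF G) (hs : Fin r → ℕ)
    (hrat : ∀ q j : ℕ, 1 ≤ q → ∀ δ : ℝ, 0 < δ → LZ {N : ℕ | δ * N < ‖Cg G hs N (j / q)‖})
    (δ : ℝ) (hδ : 0 < δ) (hδ1 : δ ≤ 1) : LZ {N : ℕ | ∃ α : ℝ, ∃ y ≤ N, δ * N < ‖Cg G hs y α‖} := by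
  have hG := hCF.1
  have hrat' : ∀ q j : ℕ, ∀ δ : ℝ, 0 < δ → LZ {N : ℕ | δ * N < ‖Cg G hs N (j / q)‖} := by
    intro q j δ hδ
    rcases Nat.eq_zero_or_pos q with h | h
    · have h1 := hrat 1 0 le_rfl δ hδ
      subst h
      simpa using h1
    · exact hrat q j h δ hδ
  set δ₀ : ℝ := δ / 4 with hδ₀
  have hδ₀0 : 0 < δ₀ := by positivity
  have hδ₀1 : δ₀ ≤ 1 := by rw [hδ₀]; linarith
  set B : Set ℕ := {m : ℕ | ∃ α : ℝ, δ₀ * m < ‖Cg G hs m α‖} with hBd
  have hB : LZ B := by
    rw [LZ_eps]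
    intro η hη
    obtain ⟨R, X₁, h1⟩ := minor hr (∑ t, hs t) hs (fun t => single_le_sum (f := fun t => hs t)
      (fun _ _ => Nat.zero_le _) (mem_univ t)) δ₀ hδ₀0 hδ₀1 (η / 2) (by positivity)
    set Mj : Set ℕ := {m : ℕ | ∃ α : ℝ, ¬ GdM R m α ∧ δ₀ * m < ‖Cg G hs m α‖} with hMj
    set δ₁ : ℝ := δ₀ / (1 + 7 * R) with hδ₁
    have h10 : (0 : ℝ) < 1 + 7 * R := by positivity
    have hδ₁0 : 0 < δ₁ := by positivity
    have hδ₁1 : δ₁ ≤ 1 := by
      rw [hδ₁, div_le_one h10]
      have : (0 : ℝ) ≤ R := Nat.cast_nonneg R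
      linarith
    have h2 : LZ Mj := by
      refine LZ_mono ?_ (LZ_bU (range (R + 1) ×ˢ range (R + 1)) (fun t =>
        {N : ℕ | ∃ y : ℕ, δ₁ / 2 * N ≤ y ∧ y ≤ N ∧ ∀ m : ℕ, y ≤ m → (m : ℝ) ≤ y + δ₁ / 2 * N →
          m ∈ {N : ℕ | δ₁ / 4 * N < ‖Cg G hs N (t.2 / t.1)‖}}) (fun t _ =>
          LZ_thick _ (hrat' t.1 t.2 (δ₁ / 4) (by positivity)) (δ₁ / 2) (by positivity) (by linarith)))
      rintro m ⟨α, hα1, hα2⟩
      have hm0 : 0 < m := by
        rcases Nat.eq_zero_or_pos m with h0 | h0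
        · exfalso
          rw [h0, Cg_zero] at hα2
          simp at hα2
        · exact h0
      unfold GdM at hα1
      push Not at hα1
      obtain ⟨q, hq1, hqR, A, hA⟩ := hα1
      obtain ⟨q', j, z, hq'1, hq'q, hj, hcop, hAq⟩ := red_frac q hq1 A
      obtain ⟨y, hyN, hy⟩ := close_rat G hs δ₀ hδ₀0 α R (Nat.cast_nonneg R) m (A / q) hA.le hα2
      rw [hAq, Cg_int] at hy
      obtain ⟨h3, h4⟩ := near G hG hs δ₁ hδ₁0 hδ₁1 _ m y hyN hm0 hy
      refine ⟨(q', j), by
        rw [mem_product, mem_range, mem_range]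
        constructor
        · show q' < R + 1
          omega
        · show j < R + 1
          omega, y, h3, hyN, fun m' hm1 hm2 => h4 m' hm1 hm2⟩
    obtain ⟨X₂, h3⟩ := (LZ_eps Mj).1 h2 (η / 2) (by positivity)
    refine ⟨X₁ + X₂, fun X hX => ?_⟩
    have h4 := h1 X (by omega) G hCF
    have h5 := h3 X (by omega)
    have h6 : sE B X ≤ sE (Bad G hs GdM R δ₀) X + sE Mj X := by
      refine (Pool.Agent.Y842.PG.sE_mono ?_ _).trans (sE_union _ _ _)
      rintro m ⟨α, hα⟩
      by_cases h : GdM R m α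
      · exact Or.inl ⟨α, h, hα⟩
      · exact Or.inr ⟨α, h, hα⟩
    linarith
  refine LZ_mono ?_ (LZ_thick B hB (δ / 2) (by positivity) (by linarith))
  rintro N ⟨α, y, hyN, hbig⟩
  have hN0 : 0 < N := by
    rcases Nat.eq_zero_or_pos N with h0 | h0
    · exfalso
      have hy : y = 0 := by omega
      rw [h0, hy, Cg_zero] at hbig
      simp at hbig
    · exact h0
  obtain ⟨h2, h3⟩ := near G hG hs δ hδ hδ1 α N y hyN hN0 hbig
  exact ⟨y, h2, hyN, fun m hm1 hm2 => ⟨α, h3 m hm1 hm2⟩⟩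

lemma e_add (x y : ℝ) : e (x + y) = e x * e y := by
  unfold e
  rw [← Complex.exp_add]
  congr 1
  push_cast
  ring

lemma e_int (m : ℤ) : e m = 1 := by
  unfold e
  rw [Complex.exp_eq_one_iff]
  exact ⟨m, by push_cast; ring⟩

lemma e_eq_one {x : ℝ} (h : e x = 1) : ∃ m : ℤ, x = m := by
  unfold e at h
  rw [Complex.exp_eq_one_iff] at h
  obtain ⟨m, hm⟩ := h
  refine ⟨m, ?_⟩
  have h2 : (2 * Real.pi * Complex.I : ℂ) ≠ 0 := by
    have : (Real.pi : ℂ) ≠ 0 := by exact_mod_cast Real.pi_ne_zero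
    simp [this]
  have h3 : (x : ℂ) * (2 * Real.pi * Complex.I) = m * (2 * Real.pi * Complex.I) := by
    rw [← hm]; ring
  have h4 := mul_right_cancel₀ h2 h3
  exact_mod_cast h4

lemma e_pow (x : ℝ) (n : ℕ) : e x ^ n = e (n * x) := by
  induction n with
  | zero => simp [e_zero]
  | succ n ih =>
    rw [pow_succ, ih, ← e_add]
    congr 1
    push_cast
    ring

lemma orth (q a n : ℕ) (ha : a < q) :
    ∑ j ∈ range q, e (j / q * n) * e (-(j * a / q)) = if n % q = a then (q : ℂ) else 0 := by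
  have hq0 : (q : ℝ) ≠ 0 := by exact_mod_cast (by omega : q ≠ 0)
  set z := e ((n - a) / q) with hz
  have h1 : ∀ j ∈ range q, e (j / q * n) * e (-(j * a / q)) = z ^ j := by
    intro j _
    rw [← e_add, hz, e_pow]
    congr 1
    field_simp
    ring
  rw [sum_congr rfl h1]
  split_ifs with h
  · have h2 : z = 1 := by
      rw [hz]
      have h3 : ((n : ℝ) - a) / q = ((n / q : ℕ) : ℤ) := by
        rw [div_eq_iff hq0]
        have h4 := Nat.div_add_mod n q
        rw [h] at h4
        have h5 : (n : ℝ) = q * (n / q : ℕ) + a := by exact_mod_cast h4.symm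
        rw [Int.cast_natCast, h5]
        have h6 : ((q : ℝ) * ((n / q : ℕ) : ℝ) + a - a) = ((n / q : ℕ) : ℝ) * q := by ring
        rw [← h5] at h6 ⊢
        linarith
      rw [h3, e_int]
    rw [h2]
    simp
  · have h2 : z ≠ 1 := by
      intro h3
      obtain ⟨m, hm⟩ := e_eq_one h3
      rw [div_eq_iff hq0] at hm
      have h4 : (n : ℤ) - a = m * q := by exact_mod_cast hm
      apply h
      have h5 : ((n % q : ℕ) : ℤ) = a := by
        rw [Int.natCast_mod]
        have h6 : (n : ℤ) = a + q * m := by linarith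
        rw [h6, Int.add_mul_emod_self_left]
        exact Int.emod_eq_of_lt (Int.natCast_nonneg a) (by exact_mod_cast ha)
      exact_mod_cast h5
    rw [geom_sum_eq h2]
    have h3 : z ^ q = 1 := by
      rw [hz, e_pow, mul_div_cancel₀ _ hq0]
      have := e_int ((n : ℤ) - a)
      push_cast at this
      exact this
    rw [h3, sub_self, zero_div]

/-- **from progressions to all phases and back** -/
theorem equivalence (H : Finset ℕ) :
    (∀ q a : ℕ, 1 ≤ q → ∀ ε : ℝ, 0 < ε →
      LZ {N : ℕ | ε * N < |∑ n ∈ (Icc 1 N).filter (fun n => n % q = a), (prodLam H n : ℝ)|}) ↔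
    ∀ ε : ℝ, 0 < ε → LZ {N : ℕ | ∃ α : ℝ, ∃ y ≤ N, ε * N < ‖Sm H y α‖} := by
  classical
  constructor
  · intro h ε hε
    set k := H.sup id + 1 with hk
    have hH : H ⊆ range k := by
      intro x hx
      have := le_sup (f := id) hx
      simp only [id] at this
      rw [mem_range]
      omega
    set δ : ℝ := min 1 (ε / 2) with hδ
    have hδ0 : 0 < δ := lt_min one_pos (by positivity)
    have h1 := all_of_rat (by omega : 1 ≤ k) (GG k H) (CF_GG k H) (hh k) (by
      intro q j hq δ hδ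
      have hq0 : (0 : ℝ) < q := by exact_mod_cast hq
      refine LZ_mono ?_ (LZ_union (LZ_bU (range q) (fun a =>
        {N : ℕ | δ / (2 * q) * N < |∑ n ∈ (Icc 1 N).filter (fun n => n % q = a), (prodLam H n : ℝ)|})
        (fun a _ => h q a hq (δ / (2 * q)) (by positivity))) (LZ_fin ⌈4 / δ⌉₊))
      intro N hN
      show N ∈ _ ∨ N < _
      by_contra hcon
      rw [not_or] at hcon
      obtain ⟨h2, h3⟩ := hcon
      have h4 : ∀ a ∈ range q, |∑ n ∈ (Icc 1 N).filter (fun n => n % q = a), (prodLam H n : ℝ)| ≤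
          δ / (2 * q) * N := by
        intro a ha
        by_contra h5
        push Not at h5
        exact h2 ⟨a, ha, h5⟩
      have h5 : 4 / δ ≤ N := by
        push Not at h3
        exact (Nat.le_ceil _).trans (by exact_mod_cast h3)
      rw [div_le_iff₀ hδ] at h5
      have h6 := Cg_Sm k H hH N (j / q)
      have h7 : ‖Sm H N (j / q)‖ ≤ δ / 2 * N := by
        have e1 : Sm H N (j / q) = ∑ a ∈ range q, e (j * a / q) *
            ((∑ n ∈ (Icc 1 N).filter (fun n => n % q = a), (prodLam H n : ℝ) : ℝ) : ℂ) := by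
          unfold Sm
          rw [← sum_fiberwise_of_maps_to (s := Icc 1 N) (t := range q) (g := fun n => n % q)
            (fun n _ => mem_range.2 (Nat.mod_lt n hq))]
          refine sum_congr rfl fun a _ => ?_
          push_cast
          rw [mul_sum]
          refine sum_congr rfl fun n hn => ?_
          rw [mem_filter] at hn
          rw [mul_comm]
          congr 1
          have h8 := Nat.div_add_mod n q
          rw [hn.2] at h8
          obtain ⟨m, hm⟩ : ∃ m : ℕ, m = n / q := ⟨_, rfl⟩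
          rw [← hm] at h8
          have h10 : (n : ℝ) = q * m + a := by exact_mod_cast h8.symm
          have h9 : (j : ℝ) / q * n = j * a / q + ((j * m : ℤ) : ℝ) := by
            rw [h10]
            push_cast
            field_simp
            ring
          rw [h9, e_add, e_int, mul_one]
        rw [e1]
        refine (norm_sum_le _ _).trans ?_
        calc ∑ a ∈ range q, ‖e (j * a / q) *
            ((∑ n ∈ (Icc 1 N).filter (fun n => n % q = a), (prodLam H n : ℝ) : ℝ) : ℂ)‖ ≤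
            ∑ a ∈ range q, δ / (2 * q) * N := by
              refine sum_le_sum fun a ha => ?_
              rw [norm_mul, e_norm, one_mul, Complex.norm_real, Real.norm_eq_abs]
              exact h4 a ha
          _ = δ / 2 * N := by
              rw [sum_const, card_range, nsmul_eq_mul]
              field_simp
      have h8 : δ * N < ‖Cg (GG k H) (hh k) N (j / q)‖ := hN
      linarith) δ hδ0 (min_le_left _ _)
    refine LZ_mono ?_ (LZ_union h1 (LZ_fin ⌈4 / ε⌉₊))
    rintro N ⟨α, y, hy, hbig⟩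
    show N ∈ _ ∨ N < _
    by_contra hcon
    rw [not_or] at hcon
    obtain ⟨h2, h3⟩ := hcon
    push Not at h3
    have h5 : 4 / ε ≤ N := (Nat.le_ceil _).trans (by exact_mod_cast h3)
    rw [div_le_iff₀ hε] at h5
    have h6 := Sm_Cg k H hH y α
    refine h2 ⟨α, y, hy, ?_⟩
    have h7 : δ * N ≤ ε / 2 * N := mul_le_mul_of_nonneg_right (min_le_right _ _) (Nat.cast_nonneg N)
    linarith
  · intro h q a hq ε hε
    refine LZ_mono ?_ (h ε hε)
    intro N hN
    have hN1 : ε * N < |∑ n ∈ (Icc 1 N).filter (fun n => n % q = a), (prodLam H n : ℝ)| := hN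
    by_contra hcon
    have h1 : ∀ α : ℝ, ‖Sm H N α‖ ≤ ε * N := by
      intro α
      by_contra h2
      push Not at h2
      exact hcon ⟨α, N, le_rfl, h2⟩
    have hq0 : (0 : ℝ) < q := by exact_mod_cast hq
    have hqC : (q : ℂ) ≠ 0 := by exact_mod_cast hq0.ne'
    rcases lt_or_ge a q with ha | ha
    · have e1 : ((∑ n ∈ (Icc 1 N).filter (fun n => n % q = a), (prodLam H n : ℝ) : ℝ) : ℂ) =
          (1 / q) * ∑ j ∈ range q, e (-(j * a / q)) * Sm H N (j / q) := by
        have e2 : ∑ j ∈ range q, e (-(j * a / q)) * Sm H N (j / q) =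
            ∑ n ∈ Icc 1 N, (prodLam H n : ℂ) * ∑ j ∈ range q, e (j / q * n) * e (-(j * a / q)) := by
          unfold Sm
          simp_rw [mul_sum]
          rw [sum_comm]
          refine sum_congr rfl fun n _ => sum_congr rfl fun j _ => ?_
          ring
        rw [e2]
        simp_rw [orth q a _ ha]
        push_cast
        rw [sum_filter, mul_sum]
        refine sum_congr rfl fun n _ => ?_
        split_ifs
        · field_simp
        · simp
      have h2 : |∑ n ∈ (Icc 1 N).filter (fun n => n % q = a), (prodLam H n : ℝ)| ≤ ε * N := by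
        rw [← Real.norm_eq_abs, ← Complex.norm_real, e1, norm_mul]
        have h3 : ‖∑ j ∈ range q, e (-(j * a / q)) * Sm H N (j / q)‖ ≤ q * (ε * N) := by
          refine (norm_sum_le _ _).trans ?_
          calc ∑ j ∈ range q, ‖e (-(j * a / q)) * Sm H N (j / q)‖ ≤ ∑ j ∈ range q, ε * N := by
                refine sum_le_sum fun j _ => ?_
                rw [norm_mul, e_norm, one_mul]
                exact h1 _
            _ = q * (ε * N) := by
                rw [sum_const, card_range, nsmul_eq_mul]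
        have h4 : ‖(1 / q : ℂ)‖ = 1 / q := by
          rw [norm_div, norm_one, Complex.norm_natCast]
        rw [h4]
        calc 1 / (q : ℝ) * ‖∑ j ∈ range q, e (-(j * a / q)) * Sm H N (j / q)‖ ≤ 1 / q * (q * (ε * N)) :=
              mul_le_mul_of_nonneg_left h3 (by positivity)
          _ = ε * N := by field_simp
      exact absurd hN1 (not_lt.2 h2)
    · have e1 : (Icc 1 N).filter (fun n => n % q = a) = ∅ := by
        apply filter_eq_empty_iff.2
        intro n _ hn
        have := Nat.mod_lt n hq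
        omega
      rw [e1] at hN1
      simp at hN1
      have : (0 : ℝ) ≤ ε * N := by positivity
      linarith

/-- a fixed irrational phase is on the minor arcs at all large scales -/
lemma minor_irr (α : ℝ) (hα : Irrational α) (R : ℕ) : ∃ N₀ : ℕ, ∀ N : ℕ, N₀ ≤ N → Minor R N α := by
  have h1 : ∀ q ∈ Icc 1 R, ∀ᶠ N : ℕ in atTop, ∀ A : ℤ, (R : ℝ) ≤ |α - A / q| * N := by
    intro q hq
    rw [mem_Icc] at hq
    have hq0 : (0 : ℝ) < q := by exact_mod_cast hq.1
    set d : ℝ := |q * α - round ((q : ℝ) * α)| with hd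
    have hd0 : 0 < d := by
      rw [hd, abs_pos, sub_ne_zero]
      intro h2
      have h3 : Irrational ((q : ℝ) * α) := hα.natCast_mul (by omega)
      exact h3.ne_int _ h2
    have h2 : ∀ᶠ N : ℕ in atTop, (R : ℝ) * q / d ≤ N := tendsto_natCast_atTop_atTop.eventually_ge_atTop _
    filter_upwards [h2] with N hN A
    rw [div_le_iff₀ hd0] at hN
    have h3 : d ≤ |q * α - A| := round_le _ _
    have h4 : |α - A / q| = |q * α - A| / q := by
      rw [← abs_of_pos hq0, ← abs_div, abs_of_pos hq0]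
      congr 1
      field_simp
    rw [h4, div_mul_eq_mul_div, le_div_iff₀ hq0]
    have h5 : d * N ≤ |q * α - A| * N := mul_le_mul_of_nonneg_right h3 (Nat.cast_nonneg N)
    linarith
  have h2 := (Filter.eventually_all_finset (Icc 1 R)).2 h1
  obtain ⟨N₀, h3⟩ := eventually_atTop.1 h2
  exact ⟨N₀, fun N hN q hq1 hqR A => h3 N hN q (mem_Icc.2 ⟨hq1, hqR⟩) A⟩

lemma LZ_of_unif (P : ℝ → ℕ → ℝ → Prop) (hP : ∀ ε ε' N α, ε ≤ ε' → P ε N α → P ε' N α)
    (h : ∀ ε : ℝ, 0 < ε → ∃ R X₀ : ℕ, ∀ X : ℕ, X₀ ≤ X → ∃ T ⊆ Icc 1 X,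
      ∑ N ∈ T, (1 : ℝ) / N ≤ ε * Real.log X ∧ ∀ N ∈ Icc 1 X, N ∉ T → ∀ α : ℝ, Minor R N α → P ε N α)
    (α : ℝ) (hα : Irrational α) (ε : ℝ) (hε : 0 < ε) : LZ {N : ℕ | ¬ P ε N α} := by
  classical
  rw [LZ_eps]
  intro η hη
  obtain ⟨R, X₀, h1⟩ := h (min ε (η / 2)) (lt_min hε (by positivity))
  obtain ⟨N₀, h2⟩ := minor_irr α hα R
  obtain ⟨X₁, h3⟩ := (LZ_eps _).1 (LZ_fin N₀) (η / 2) (by positivity)
  refine ⟨X₀ + X₁ + 1, fun X hX => ?_⟩
  have hlog : 0 ≤ Real.log (X : ℝ) := Real.log_natCast_nonneg X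
  obtain ⟨T, hT, hT1, h4⟩ := h1 X (by omega)
  have h5 : sE {N : ℕ | ¬ P ε N α} X ≤ sE (T : Set ℕ) X + sE {N : ℕ | N < N₀} X := by
    refine (Pool.Agent.Y842.EL.sE_mono (F := (T : Set ℕ) ∪ {N : ℕ | N < N₀}) X ?_).trans (sE_union _ _ _)
    intro n hn hnP
    by_contra h6
    rw [Set.mem_union, not_or] at h6
    obtain ⟨h7, h8⟩ := h6
    have h9 : N₀ ≤ n := by
      by_contra h10
      push Not at h10
      exact h8 h10
    exact hnP (hP _ _ n α (min_le_left _ _) (h4 n hn (by exact_mod_cast h7) α (h2 n h9)))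
  have h6 : sE (T : Set ℕ) X ≤ η / 2 * Real.log X := by
    have e1 : sE (T : Set ℕ) X = ∑ N ∈ T, (1 : ℝ) / N := by
      rw [sE_eq]
      congr 1
      ext n
      rw [mem_filter]
      exact ⟨fun h => by exact_mod_cast h.2, fun h => ⟨hT h, by exact_mod_cast h⟩⟩
    rw [e1]
    exact hT1.trans (mul_le_mul_of_nonneg_right (min_le_right _ _) hlog)
  have h7 := h3 X (by omega)
  linarith

end Pool.Agent.V1213.CH
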