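import Pool.Agent.V1213.CH.Mult
import Pool.Agent.Y842.PG.Ell

/-!
Classes of tuples of multiplicative functions: all phases and progressions, uniformly in the class.
-/

set_option autoImplicit false

open Finset Filter Topology

namespace Pool.Agent.V1213.CH

open Pool.Agent.Y842.PG
open Pool.Agent.Y304.U (sE ind ind_nonneg ind_le sE_nonneg)
open Pool.Agent.Y958.U (LZ)
open Pool.Agent.Y842.EL (LZ_eps)

/-- small logarithmic measure, uniformly in the class `C` -/
def UN {r : ℕ} (C : (Fin r → ℕ → ℂ) → Prop) (E : (Fin r → ℕ → ℂ) → Set ℕ) : Prop :=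
  ∀ η : ℝ, 0 < η → ∃ X₀ : ℕ, ∀ X : ℕ, X₀ ≤ X → ∀ g, C g → sE (E g) X ≤ η * Real.log X

section

variable {r : ℕ} {C : (Fin r → ℕ → ℂ) → Prop}

lemma UN_mono {E F : (Fin r → ℕ → ℂ) → Set ℕ} (h : ∀ g, C g → E g ⊆ F g) (hF : UN C F) : UN C E := by
  intro η hη
  obtain ⟨X₀, h1⟩ := hF η hη
  exact ⟨X₀, fun X hX g hg => (Pool.Agent.Y842.PG.sE_mono (h g hg) X).trans (h1 X hX g hg)⟩

lemma UN_union {E F : (Fin r → ℕ → ℂ) → Set ℕ} (hE : UN C E) (hF : UN C F) : UN C (fun g => E g ∪ F g) := by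
  intro η hη
  obtain ⟨X₁, h1⟩ := hE (η / 2) (by positivity)
  obtain ⟨X₂, h2⟩ := hF (η / 2) (by positivity)
  refine ⟨X₁ + X₂, fun X hX g hg => (sE_union _ _ X).trans ?_⟩
  have h3 := h1 X (by omega) g hg
  have h4 := h2 X (by omega) g hg
  linarith

lemma UN_const {E : Set ℕ} (hE : LZ E) : UN C (fun _ => E) := by
  intro η hη
  obtain ⟨X₀, h1⟩ := (LZ_eps E).1 hE η hη
  exact ⟨X₀, fun X hX g _ => h1 X hX⟩

lemma UN_bU {ι : Type} (s : Finset ι) (E : ι → (Fin r → ℕ → ℂ) → Set ℕ) (h : ∀ i ∈ s, UN C (E i)) :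
    UN C (fun g => {N | ∃ i ∈ s, N ∈ E i g}) := by
  classical
  induction s using Finset.induction_on with
  | empty =>
    refine UN_mono ?_ (UN_const Pool.Agent.Y842.EL.LZ_empty)
    rintro g _ N ⟨i, hi, _⟩
    simp at hi
  | insert a s ha ih =>
    refine UN_mono ?_ (UN_union (h a (mem_insert_self _ _)) (ih fun i hi => h i (mem_insert_of_mem hi)))
    rintro g _ N ⟨i, hi, hN⟩
    rcases mem_insert.1 hi with rfl | hi
    · exact Or.inl hN
    · exact Or.inr ⟨i, hi, hN⟩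

lemma UN_thick {B : (Fin r → ℕ → ℂ) → Set ℕ} (hB : UN C B) (c : ℝ) (hc : 0 < c) (hc1 : c ≤ 1) :
    UN C (fun g => {N : ℕ | ∃ y : ℕ, c * N ≤ y ∧ y ≤ N ∧ ∀ m : ℕ, y ≤ m → (m : ℝ) ≤ y + c * N → m ∈ B g}) := by
  intro η hη
  obtain ⟨X₀, h1⟩ := hB (η * c / 8) (by positivity)
  refine ⟨X₀ + 2, fun X hX g hg => (thick (B g) c hc hc1 X).trans ?_⟩
  have h2 := h1 (2 * X) (by omega) g hg
  have h3 := log_two_mul X (by omega)
  calc 4 / c * sE (B g) (2 * X) ≤ 4 / c * (η * c / 8 * (2 * Real.log X)) := by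
        apply mul_le_mul_of_nonneg_left _ (by positivity)
        exact h2.trans (mul_le_mul_of_nonneg_left h3 (by positivity))
    _ = η * Real.log X := by field_simp; ring

end

lemma Cg_Pd {r : ℕ} (g : Fin r → ℕ → ℂ) (hs : Fin r → ℕ) (y : ℕ) (α : ℝ) :
    Cg g hs y α = ∑ n ∈ range y, Pd g hs n * e (α * n) := by
  unfold Cg
  refine sum_congr rfl fun n _ => ?_
  unfold pr Pd
  simp only [one_mul]
  rfl

/-- exponential sum over `1, …, y` -/
noncomputable def Sg {r : ℕ} (g : Fin r → ℕ → ℂ) (hs : Fin r → ℕ) (y : ℕ) (α : ℝ) : ℂ :=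
  ∑ n ∈ Icc 1 y, Pd g hs n * e (α * n)

lemma Fle {r : ℕ} {g : Fin r → ℕ → ℂ} (hs : Fin r → ℕ) (hg : ∀ t, DM (g t)) (α : ℝ) (n : ℕ) :
    ‖Pd g hs n * e (α * n)‖ ≤ 1 := by
  rw [norm_mul, e_norm, mul_one]
  exact Pd_le hs hg n

lemma Sg_Cg {r : ℕ} {g : Fin r → ℕ → ℂ} (hs : Fin r → ℕ) (hg : ∀ t, DM (g t)) (y : ℕ) (α : ℝ) :
    ‖Sg g hs y α‖ ≤ ‖Cg g hs y α‖ + 2 := by
  rw [Cg_Pd]
  exact sum_shift_le (fun n => Pd g hs n * e (α * n)) (Fle hs hg α) y

lemma Cg_Sg {r : ℕ} {g : Fin r → ℕ → ℂ} (hs : Fin r → ℕ) (hg : ∀ t, DM (g t)) (y : ℕ) (α : ℝ) :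
    ‖Cg g hs y α‖ ≤ ‖Sg g hs y α‖ + 2 := by
  set F : ℕ → ℂ := fun n => Pd g hs n * e (α * n) with hF
  have h1 : Sg g hs y α = ∑ n ∈ range y, F n + F y - F 0 := sum_shift F y
  rw [Cg_Pd, show ∑ n ∈ range y, Pd g hs n * e (α * n) = Sg g hs y α - F y + F 0 by rw [h1]; ring]
  have h2 := norm_add_le (Sg g hs y α - F y) (F 0)
  have h3 := norm_sub_le (Sg g hs y α) (F y)
  have h4 := Fle hs hg α 0
  have h5 := Fle hs hg α y
  linarith

theorem all_of_rat_unif {r : ℕ} (hr : 1 ≤ r) (hs : Fin r → ℕ) (C : (Fin r → ℕ → ℂ) → Prop)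
    (hC : ∀ g, C g → ∀ t, DM (g t))
    (hrat : ∀ q j : ℕ, 1 ≤ q → ∀ δ : ℝ, 0 < δ → UN C (fun g => {N : ℕ | δ * N < ‖Cg g hs N (j / q)‖}))
    (δ : ℝ) (hδ : 0 < δ) (hδ1 : δ ≤ 1) : UN C (fun g => {N : ℕ | ∃ α : ℝ, ∃ y ≤ N, δ * N < ‖Cg g hs y α‖}) := by
  classical
  have hrat' : ∀ q j : ℕ, ∀ δ : ℝ, 0 < δ → UN C (fun g => {N : ℕ | δ * N < ‖Cg g hs N (j / q)‖}) := by
    intro q j δ hδ
    rcases Nat.eq_zero_or_pos q with h | h
    · have h1 := hrat 1 0 le_rfl δ hδ
      subst h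
      simpa using h1
    · exact hrat q j h δ hδ
  set δ₀ : ℝ := δ / 4 with hδ₀
  have hδ₀0 : 0 < δ₀ := by positivity
  have hδ₀1 : δ₀ ≤ 1 := by rw [hδ₀]; linarith
  have hB : UN C (fun g => {m : ℕ | ∃ α : ℝ, δ₀ * m < ‖Cg g hs m α‖}) := by
    intro η hη
    obtain ⟨R₀, X₁, h1⟩ := minor_ex hr hs (η / 2) (by positivity) (δ₀ / 2) (by positivity)
    set R : ℕ := R₀ + ⌈4 / δ₀⌉₊ with hR
    set δ₁ : ℝ := δ₀ / (1 + 7 * R) with hδ₁
    have h10 : (0 : ℝ) < 1 + 7 * R := by positivity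
    have hδ₁0 : 0 < δ₁ := by positivity
    have hδ₁1 : δ₁ ≤ 1 := by
      rw [hδ₁, div_le_one h10]
      have : (0 : ℝ) ≤ R := Nat.cast_nonneg R
      linarith
    have h2 : UN C (fun g => {m : ℕ | ∃ α : ℝ, ¬ GdM R m α ∧ δ₀ * m < ‖Cg g hs m α‖}) := by
      refine UN_mono ?_ (UN_bU (range (R + 1) ×ˢ range (R + 1)) (fun t g =>
        {N : ℕ | ∃ y : ℕ, δ₁ / 2 * N ≤ y ∧ y ≤ N ∧ ∀ m : ℕ, y ≤ m → (m : ℝ) ≤ y + δ₁ / 2 * N →
          m ∈ {N : ℕ | δ₁ / 4 * N < ‖Cg g hs N (t.2 / t.1)‖}}) (fun t _ =>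
          UN_thick (hrat' t.1 t.2 (δ₁ / 4) (by positivity)) (δ₁ / 2) (by positivity) (by linarith)))
      rintro g hg m ⟨α, hα1, hα2⟩
      have hG := fun t n => (hC g hg t).1 n
      have hm0 : 0 < m := by
        rcases Nat.eq_zero_or_pos m with h0 | h0
        · exfalso
          rw [h0, Cg_zero] at hα2
          simp at hα2
        · exact h0
      unfold GdM at hα1
      push Not at hα1
      obtain ⟨q, hq1, hqR, A, hA⟩ := hα1
      obtain ⟨q', j, z, hq'1, hq'q, hj, hcop, hAq⟩ := red_frac q hq1 A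
      obtain ⟨y, hyN, hy⟩ := close_rat g hs δ₀ hδ₀0 α R (Nat.cast_nonneg R) m (A / q) hA.le hα2
      rw [hAq, Cg_int] at hy
      obtain ⟨h3, h4⟩ := near g hG hs δ₁ hδ₁0 hδ₁1 _ m y hyN hm0 hy
      refine ⟨(q', j), by
        rw [mem_product, mem_range, mem_range]
        constructor
        · show q' < R + 1
          omega
        · show j < R + 1
          omega, y, h3, hyN, fun m' hm1 hm2 => h4 m' hm1 hm2⟩
    obtain ⟨X₂, h3⟩ := h2 (η / 2) (by positivity)
    refine ⟨X₁ + X₂, fun X hX g hg => ?_⟩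
    obtain ⟨T, hT, hT1, h4⟩ := h1 X (by omega) g (hC g hg)
    have h5 := h3 X (by omega) g hg
    have h6 : sE {m : ℕ | ∃ α : ℝ, δ₀ * m < ‖Cg g hs m α‖} X ≤
        sE (T : Set ℕ) X + sE {m : ℕ | ∃ α : ℝ, ¬ GdM R m α ∧ δ₀ * m < ‖Cg g hs m α‖} X := by
      refine (Pool.Agent.Y842.EL.sE_mono (F := (T : Set ℕ) ∪
        {m : ℕ | ∃ α : ℝ, ¬ GdM R m α ∧ δ₀ * m < ‖Cg g hs m α‖}) X ?_).trans (sE_union _ _ _)
      rintro m hm ⟨α, hα⟩
      by_cases h : GdM R m α
      · left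
        by_contra hmT
        have hM : Minor R m α := h
        have hceil : 1 ≤ ⌈4 / δ₀⌉₊ := Nat.one_le_ceil_iff.2 (by positivity)
        have h7 := Minor_le (by omega) hM
        have h8 : 4 / δ₀ ≤ m := by
          have h9 : (4 / δ₀ : ℝ) ≤ R := by
            rw [hR]
            push_cast
            have := Nat.le_ceil (4 / δ₀)
            have : (0 : ℝ) ≤ R₀ := Nat.cast_nonneg _
            linarith
          have : (0 : ℝ) ≤ R := Nat.cast_nonneg _
          linarith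
        rw [div_le_iff₀ hδ₀0] at h8
        have h9 := h4 m hm (fun h => hmT (by exact_mod_cast h)) α (Minor_mono (by omega) hM) m le_rfl
        have h11 := Cg_Sg hs (hC g hg) m α
        have h12 : ‖Sg g hs m α‖ ≤ δ₀ / 2 * m := h9
        linarith
      · exact Or.inr ⟨α, h, hα⟩
    have h7 : sE (T : Set ℕ) X ≤ η / 2 * Real.log X := by
      have e1 : sE (T : Set ℕ) X = ∑ N ∈ T, (1 : ℝ) / N := by
        rw [sE_eq]
        congr 1
        ext n
        rw [mem_filter]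
        exact ⟨fun h => by exact_mod_cast h.2, fun h => ⟨hT h, by exact_mod_cast h⟩⟩
      rw [e1]
      exact hT1
    linarith
  refine UN_mono ?_ (UN_thick hB (δ / 2) (by positivity) (by linarith))
  rintro g hg N ⟨α, y, hyN, hbig⟩
  have hG := fun t n => (hC g hg t).1 n
  have hN0 : 0 < N := by
    rcases Nat.eq_zero_or_pos N with h0 | h0
    · exfalso
      have hy : y = 0 := by omega
      rw [h0, hy, Cg_zero] at hbig
      simp at hbig
    · exact h0
  obtain ⟨h2, h3⟩ := near g hG hs δ hδ hδ1 α N y hyN hN0 hbig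
  exact ⟨y, h2, hyN, fun m hm1 hm2 => ⟨α, h3 m hm1 hm2⟩⟩

/-- **from progressions to all phases and back**, uniformly in a class of tuples -/
theorem class_equiv {r : ℕ} (hr : 1 ≤ r) (hs : Fin r → ℕ) (C : (Fin r → ℕ → ℂ) → Prop)
    (hC : ∀ g, C g → ∀ t, DM (g t)) :
    (∀ q a : ℕ, 1 ≤ q → ∀ ε : ℝ, 0 < ε →
      UN C (fun g => {N : ℕ | ε * N < ‖∑ n ∈ (Icc 1 N).filter (fun n => n % q = a), Pd g hs n‖})) ↔
    ∀ ε : ℝ, 0 < ε → UN C (fun g => {N : ℕ | ∃ α : ℝ, ∃ y ≤ N, ε * N < ‖Sg g hs y α‖}) := by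
  classical
  constructor
  · intro h ε hε
    set δ : ℝ := min 1 (ε / 2) with hδ
    have hδ0 : 0 < δ := lt_min one_pos (by positivity)
    have h1 := all_of_rat_unif hr hs C hC (by
      intro q j hq δ hδ
      have hq0 : (0 : ℝ) < q := by exact_mod_cast hq
      refine UN_mono ?_ (UN_union (UN_bU (range q) (fun a g =>
        {N : ℕ | δ / (2 * q) * N < ‖∑ n ∈ (Icc 1 N).filter (fun n => n % q = a), Pd g hs n‖})
        (fun a _ => h q a hq (δ / (2 * q)) (by positivity))) (UN_const (LZ_fin ⌈4 / δ⌉₊)))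
      intro g hg N hN
      show N ∈ _ ∨ N < _
      by_contra hcon
      rw [not_or] at hcon
      obtain ⟨h2, h3⟩ := hcon
      have h4 : ∀ a ∈ range q, ‖∑ n ∈ (Icc 1 N).filter (fun n => n % q = a), Pd g hs n‖ ≤
          δ / (2 * q) * N := by
        intro a ha
        by_contra h5
        push Not at h5
        exact h2 ⟨a, ha, h5⟩
      have h5 : 4 / δ ≤ N := by
        push Not at h3
        exact (Nat.le_ceil _).trans (by exact_mod_cast h3)
      rw [div_le_iff₀ hδ] at h5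
      have h6 := Cg_Sg hs (hC g hg) N (j / q)
      have h7 : ‖Sg g hs N (j / q)‖ ≤ δ / 2 * N := by
        have e1 : Sg g hs N (j / q) = ∑ a ∈ range q, e (j * a / q) *
            (∑ n ∈ (Icc 1 N).filter (fun n => n % q = a), Pd g hs n) := by
          unfold Sg
          rw [← sum_fiberwise_of_maps_to (s := Icc 1 N) (t := range q) (g := fun n => n % q)
            (fun n _ => mem_range.2 (Nat.mod_lt n hq))]
          refine sum_congr rfl fun a _ => ?_
          rw [mul_sum]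
          refine sum_congr rfl fun n hn => ?_
          rw [mem_filter] at hn
          rw [mul_comm]
          congr 1
          have h8 := Nat.div_add_mod n q
          rw [hn.2] at h8
          obtain ⟨m, hm⟩ : ∃ m : ℕ, m = n / q := ⟨_, rfl⟩
          rw [← hm] at h8
          have h10 : (n : ℝ) = q * m + a := by exact_mod_cast h8.symm
          have h9 : (j : ℝ) / q * n = j * a / q + ((j * m : ℤ) : ℝ) := by
            rw [h10]
            push_cast
            field_simp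
            ring
          rw [h9, e_add, e_int, mul_one]
        rw [e1]
        refine (norm_sum_le _ _).trans ?_
        calc ∑ a ∈ range q, ‖e (j * a / q) *
            (∑ n ∈ (Icc 1 N).filter (fun n => n % q = a), Pd g hs n)‖ ≤
            ∑ a ∈ range q, δ / (2 * q) * N := by
              refine sum_le_sum fun a ha => ?_
              rw [norm_mul, e_norm, one_mul]
              exact h4 a ha
          _ = δ / 2 * N := by
              rw [sum_const, card_range, nsmul_eq_mul]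
              field_simp
      have h8 : δ * N < ‖Cg g hs N (j / q)‖ := hN
      linarith) δ hδ0 (min_le_left _ _)
    refine UN_mono ?_ (UN_union h1 (UN_const (LZ_fin ⌈4 / ε⌉₊)))
    rintro g hg N ⟨α, y, hy, hbig⟩
    show N ∈ _ ∨ N < _
    by_contra hcon
    rw [not_or] at hcon
    obtain ⟨h2, h3⟩ := hcon
    push Not at h3
    have h5 : 4 / ε ≤ N := (Nat.le_ceil _).trans (by exact_mod_cast h3)
    rw [div_le_iff₀ hε] at h5
    have h6 := Sg_Cg hs (hC g hg) y α
    refine h2 ⟨α, y, hy, ?_⟩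
    have h7 : δ * N ≤ ε / 2 * N := mul_le_mul_of_nonneg_right (min_le_right _ _) (Nat.cast_nonneg N)
    linarith
  · intro h q a hq ε hε
    refine UN_mono ?_ (h ε hε)
    intro g hg N hN
    have hN1 : ε * N < ‖∑ n ∈ (Icc 1 N).filter (fun n => n % q = a), Pd g hs n‖ := hN
    by_contra hcon
    have h1 : ∀ α : ℝ, ‖Sg g hs N α‖ ≤ ε * N := by
      intro α
      by_contra h2
      push Not at h2
      exact hcon ⟨α, N, le_rfl, h2⟩
    have hq0 : (0 : ℝ) < q := by exact_mod_cast hq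
    have hqC : (q : ℂ) ≠ 0 := by exact_mod_cast hq0.ne'
    rcases lt_or_ge a q with ha | ha
    · have e1 : ∑ n ∈ (Icc 1 N).filter (fun n => n % q = a), Pd g hs n =
          (1 / q) * ∑ j ∈ range q, e (-(j * a / q)) * Sg g hs N (j / q) := by
        have e2 : ∑ j ∈ range q, e (-(j * a / q)) * Sg g hs N (j / q) =
            ∑ n ∈ Icc 1 N, Pd g hs n * ∑ j ∈ range q, e (j / q * n) * e (-(j * a / q)) := by
          unfold Sg
          simp_rw [mul_sum]
          rw [sum_comm]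
          refine sum_congr rfl fun n _ => sum_congr rfl fun j _ => ?_
          ring
        rw [e2]
        simp_rw [orth q a _ ha]
        rw [sum_filter, mul_sum]
        refine sum_congr rfl fun n _ => ?_
        split_ifs
        · field_simp
        · simp
      have h2 : ‖∑ n ∈ (Icc 1 N).filter (fun n => n % q = a), Pd g hs n‖ ≤ ε * N := by
        rw [e1, norm_mul]
        have h3 : ‖∑ j ∈ range q, e (-(j * a / q)) * Sg g hs N (j / q)‖ ≤ q * (ε * N) := by
          refine (norm_sum_le _ _).trans ?_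
          calc ∑ j ∈ range q, ‖e (-(j * a / q)) * Sg g hs N (j / q)‖ ≤ ∑ j ∈ range q, ε * N := by
                refine sum_le_sum fun j _ => ?_
                rw [norm_mul, e_norm, one_mul]
                exact h1 _
            _ = q * (ε * N) := by
                rw [sum_const, card_range, nsmul_eq_mul]
        have h4 : ‖(1 / q : ℂ)‖ = 1 / q := by
          rw [norm_div, norm_one, Complex.norm_natCast]
        rw [h4]
        calc 1 / (q : ℝ) * ‖∑ j ∈ range q, e (-(j * a / q)) * Sg g hs N (j / q)‖ ≤ 1 / q * (q * (ε * N)) :=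
              mul_le_mul_of_nonneg_left h3 (by positivity)
          _ = ε * N := by field_simp
      exact absurd hN1 (not_lt.2 h2)
    · have e1 : (Icc 1 N).filter (fun n => n % q = a) = ∅ := by
        apply filter_eq_empty_iff.2
        intro n _ hn
        have := Nat.mod_lt n hq
        omega
      rw [e1] at hN1
      simp at hN1
      have : (0 : ℝ) ≤ ε * N := by positivity
      linarith

end Pool.Agent.V1213.CH
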