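import Pool.Agent.V1213.CH.Class

/-!
Products of values of the Liouville function at linear forms: minor arcs, Bohr sets, and the equivalence of the
sums without and with phases at almost all scales.
-/

set_option autoImplicit false

open Finset Filter Topology

namespace Pool.Agent.V1213.CH

open Pool.Agent.Y842.PG
open Pool.Agent.Y304.U (sE ind ind_nonneg ind_le sE_nonneg)
open Pool.Agent.Y958.U (LZ)
open Pool.Agent.Y842.EL (LZ_eps LZ_mono LZ_union LZ_empty LZ_pull)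

lemma lam_mul {m n : ℕ} (hm : m ≠ 0) (hn : n ≠ 0) : lam (m * n) = lam m * lam n := by
  unfold lam
  rw [ArithmeticFunction.cardFactors_mul hm hn, pow_add]

lemma lam_sq (n : ℕ) : lam n * lam n = 1 := by
  rcases lam_pm n with h | h <;> rw [h] <;> norm_num

/-- the Liouville function with complex values -/
noncomputable def lamC (n : ℕ) : ℂ := (lam n : ℂ)

lemma lamC_DM : DM lamC := by
  refine ⟨fun n => (lam_norm n).le, fun m n h => ?_⟩
  unfold lamC
  rcases Nat.eq_zero_or_pos m with hm | hm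
  · subst hm
    rw [Nat.coprime_zero_left] at h
    subst h
    simp [lam]
  · rcases Nat.eq_zero_or_pos n with hn | hn
    · subst hn
      rw [Nat.coprime_zero_right] at h
      subst h
      simp [lam]
    · rw [lam_mul (by omega) (by omega)]
      push_cast
      rfl

section

variable {k : ℕ}

/-- `∏ λ(a_i n + b_i)` -/
def FL (a b : Fin k → ℕ) (n : ℕ) : ℤ := ∏ i, lam (a i * n + b i)

/-- the exponential sum -/
noncomputable def SL (a b : Fin k → ℕ) (y : ℕ) (α : ℝ) : ℂ := ∑ n ∈ Icc 1 y, (FL a b n : ℂ) * e (α * n)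

def AA (a : Fin k → ℕ) : ℕ := ∏ i, a i

def cc (a : Fin k → ℕ) (i : Fin k) : ℕ := ∏ j ∈ univ.erase i, a j

def bb (a b : Fin k → ℕ) (i : Fin k) : ℕ := cc a i * b i

lemma AA_eq (a : Fin k → ℕ) (i : Fin k) : AA a = cc a i * a i := by
  unfold AA cc
  rw [prod_erase_mul _ _ (mem_univ i)]

lemma AA_pos {a : Fin k → ℕ} (ha : ∀ i, 1 ≤ a i) : 0 < AA a := prod_pos fun i _ => ha i

lemma cc_pos {a : Fin k → ℕ} (ha : ∀ i, 1 ≤ a i) (i : Fin k) : 0 < cc a i := prod_pos fun i _ => ha i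

/-- the sign -/
def sg (a : Fin k → ℕ) : ℤ := ∏ i, lam (cc a i)

lemma FL_norm (a b : Fin k → ℕ) (n : ℕ) : ‖(FL a b n : ℂ)‖ = 1 := by
  unfold FL
  push_cast
  rw [norm_prod]
  exact prod_eq_one fun i _ => lam_norm _

lemma FL_abs (a b : Fin k → ℕ) (n : ℕ) : |(FL a b n : ℝ)| = 1 := by
  have h := FL_norm a b n
  rw [← Complex.ofReal_intCast, Complex.norm_real, Real.norm_eq_abs] at h
  exact h

lemma sg_norm (a : Fin k → ℕ) : ‖(sg a : ℂ)‖ = 1 := by
  unfold sg
  push_cast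
  rw [norm_prod]
  exact prod_eq_one fun i _ => lam_norm _

lemma FL_eq {a : Fin k → ℕ} (b : Fin k → ℕ) (ha : ∀ i, 1 ≤ a i) {n : ℕ} (hn : 1 ≤ n) :
    (FL a b n : ℂ) = (sg a : ℂ) * Pd (fun _ : Fin k => lamC) (bb a b) (AA a * n) := by
  unfold FL sg Pd lamC bb
  push_cast
  rw [← prod_mul_distrib]
  refine prod_congr rfl fun i _ => ?_
  have h1 : AA a * n + cc a i * b i = cc a i * (a i * n + b i) := by
    rw [AA_eq a i]
    ring
  have h2 : a i * n + b i ≠ 0 := by
    have := Nat.mul_pos (ha i) hn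
    omega
  rw [h1, lam_mul (cc_pos ha i).ne' h2]
  push_cast
  rw [← mul_assoc]
  have h3 : ((lam (cc a i) : ℂ)) * (lam (cc a i) : ℂ) = 1 := by exact_mod_cast lam_sq (cc a i)
  rw [h3, one_mul]

/-- multiples of `A` -/
lemma sum_mult (A : ℕ) (hA : 0 < A) (y : ℕ) (G : ℕ → ℂ) (α : ℝ) :
    ∑ n ∈ Icc 1 y, G (A * n) * e (α * n) =
      (1 / A) * ∑ j ∈ range A, ∑ m ∈ Icc 1 (A * y), G m * e ((α + j) / A * m) := by
  have hA0 : (A : ℝ) ≠ 0 := by exact_mod_cast hA.ne'
  have hAC : (A : ℂ) ≠ 0 := by exact_mod_cast hA.ne'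
  have h1 : ∑ j ∈ range A, ∑ m ∈ Icc 1 (A * y), G m * e ((α + j) / A * m) =
      ∑ m ∈ Icc 1 (A * y), G m * e (α * m / A) * (if m % A = 0 then (A : ℂ) else 0) := by
    rw [sum_comm]
    refine sum_congr rfl fun m _ => ?_
    rw [← orth A 0 m hA, mul_sum]
    refine sum_congr rfl fun j _ => ?_
    rw [mul_assoc, ← e_add, ← e_add]
    congr 2
    field_simp
    push_cast
    ring
  rw [h1, mul_sum]
  have h2 : ∀ m ∈ Icc 1 (A * y), 1 / (A : ℂ) * (G m * e (α * m / A) * (if m % A = 0 then (A : ℂ) else 0)) =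
      if m % A = 0 then G m * e (α * m / A) else 0 := by
    intro m _
    split_ifs
    · field_simp
    · simp
  rw [sum_congr rfl h2, ← sum_filter]
  refine sum_nbij' (fun n => A * n) (fun m => m / A) ?_ ?_ ?_ ?_ ?_
  · intro n hn
    rw [mem_Icc] at hn
    rw [mem_filter, mem_Icc]
    exact ⟨⟨Nat.mul_pos hA hn.1, Nat.mul_le_mul_left A hn.2⟩, Nat.mul_mod_right A n⟩
  · intro m hm
    rw [mem_filter, mem_Icc] at hm
    obtain ⟨⟨hm1, hm2⟩, hm3⟩ := hm
    have h3 := Nat.div_add_mod m A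
    rw [hm3, add_zero] at h3
    rw [mem_Icc]
    constructor
    · rcases Nat.eq_zero_or_pos (m / A) with h4 | h4
      · rw [h4, mul_zero] at h3
        omega
      · exact h4
    · have h4 : A * (m / A) ≤ A * y := by rw [h3]; exact hm2
      exact Nat.le_of_mul_le_mul_left h4 hA
  · intro n _
    exact Nat.mul_div_cancel_left n hA
  · intro m hm
    rw [mem_filter] at hm
    have h3 := Nat.div_add_mod m A
    rw [hm.2, add_zero] at h3
    exact h3
  · intro n _
    congr 2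
    push_cast
    field_simp

lemma SL_eq {a : Fin k → ℕ} (b : Fin k → ℕ) (ha : ∀ i, 1 ≤ a i) (y : ℕ) (α : ℝ) :
    SL a b y α = (sg a : ℂ) * ((1 / (AA a : ℂ)) * ∑ j ∈ range (AA a),
      Sg (fun _ : Fin k => lamC) (bb a b) (AA a * y) ((α + j) / AA a)) := by
  unfold SL Sg
  rw [← sum_mult (AA a) (AA_pos ha) y (Pd (fun _ : Fin k => lamC) (bb a b)) α, mul_sum]
  refine sum_congr rfl fun n hn => ?_
  rw [mem_Icc] at hn
  rw [FL_eq b ha hn.1]
  ring

lemma SL_le {a : Fin k → ℕ} (b : Fin k → ℕ) (ha : ∀ i, 1 ≤ a i) (y : ℕ) (α : ℝ) (B : ℝ)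
    (h : ∀ j < AA a, ‖Sg (fun _ : Fin k => lamC) (bb a b) (AA a * y) ((α + j) / AA a)‖ ≤ B) :
    ‖SL a b y α‖ ≤ B := by
  have hA := AA_pos ha
  have hA0 : (0 : ℝ) < AA a := by exact_mod_cast hA
  rw [SL_eq b ha, norm_mul, sg_norm, one_mul, norm_mul]
  have h1 : ‖∑ j ∈ range (AA a), Sg (fun _ : Fin k => lamC) (bb a b) (AA a * y) ((α + j) / AA a)‖ ≤ AA a * B := by
    refine (norm_sum_le _ _).trans ?_
    calc ∑ j ∈ range (AA a), ‖Sg (fun _ : Fin k => lamC) (bb a b) (AA a * y) ((α + j) / AA a)‖ ≤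
        ∑ j ∈ range (AA a), B := sum_le_sum fun j hj => h j (mem_range.1 hj)
      _ = AA a * B := by rw [sum_const, card_range, nsmul_eq_mul]
  have h2 : ‖(1 / (AA a : ℂ))‖ = 1 / AA a := by rw [norm_div, norm_one, Complex.norm_natCast]
  rw [h2]
  calc 1 / (AA a : ℝ) * _ ≤ 1 / AA a * (AA a * B) := mul_le_mul_of_nonneg_left h1 (by positivity)
    _ = B := by field_simp

lemma Minor_dil {R N A : ℕ} (hA : 0 < A) {α : ℝ} (j : ℕ) (hM : Minor R N α) : Minor R (A * N) ((α + j) / A) := by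
  intro q hq hqR P
  have hA0 : (0 : ℝ) < A := by exact_mod_cast hA
  have hq0 : (0 : ℝ) < q := by exact_mod_cast hq
  have h1 := hM q hq hqR (A * P - j * q)
  refine h1.trans (le_of_eq ?_)
  have h2 : (α + j) / A - P / q = (α - ((A * P - j * q : ℤ) : ℝ) / q) / A := by
    push_cast
    field_simp
    ring
  rw [h2, abs_div, abs_of_pos hA0]
  push_cast
  field_simp

/-- **minor arcs** for linear forms -/
theorem lin_minor (hk : 1 ≤ k) {a : Fin k → ℕ} (b : Fin k → ℕ) (ha : ∀ i, 1 ≤ a i) (ε : ℝ) (hε : 0 < ε)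
    (κ : ℝ) (hκ : 0 < κ) : ∃ R X₀ : ℕ, ∀ X : ℕ, X₀ ≤ X → ∃ T ⊆ Icc 1 X,
      ∑ N ∈ T, (1 : ℝ) / N ≤ ε * Real.log X ∧ ∀ N ∈ Icc 1 X, N ∉ T → ∀ α : ℝ, Minor R N α → ∀ y ≤ N,
        ‖SL a b y α‖ ≤ κ * N := by
  classical
  have hA := AA_pos ha
  have hA0 : (0 : ℝ) < AA a := by exact_mod_cast hA
  obtain ⟨R, X₀, h⟩ := minor_ex hk (bb a b) (ε / (2 * AA a)) (by positivity) (κ / AA a) (by positivity)
  refine ⟨R, X₀ + AA a + 1, fun X hX => ?_⟩
  have hXA : X ≤ AA a * X := Nat.le_mul_of_pos_left X hA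
  obtain ⟨T, hT, hT1, h1⟩ := h (AA a * X) (by omega) (fun _ => lamC) (fun _ => lamC_DM)
  refine ⟨(Icc 1 X).filter (fun N => AA a * N ∈ T), filter_subset _ _, ?_, ?_⟩
  · have h2 : ∑ N ∈ (Icc 1 X).filter (fun N => AA a * N ∈ T), (1 : ℝ) / N ≤ AA a * ∑ M ∈ T, (1 : ℝ) / M := by
      rw [mul_sum]
      have h3 : ∑ N ∈ (Icc 1 X).filter (fun N => AA a * N ∈ T), (1 : ℝ) / N =
          ∑ M ∈ ((Icc 1 X).filter (fun N => AA a * N ∈ T)).image (fun N => AA a * N), AA a * ((1 : ℝ) / M) := by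
        rw [sum_image (fun x _ y _ h => Nat.eq_of_mul_eq_mul_left hA h)]
        refine sum_congr rfl fun N hN => ?_
        rw [mem_filter, mem_Icc] at hN
        have : (N : ℝ) ≠ 0 := by exact_mod_cast (by omega : N ≠ 0)
        push_cast
        field_simp
      rw [h3]
      refine sum_le_sum_of_subset_of_nonneg ?_ (fun M _ _ => by positivity)
      intro M hM
      rw [mem_image] at hM
      obtain ⟨N, hN, rfl⟩ := hM
      exact (mem_filter.1 hN).2
    refine h2.trans ?_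
    have hX1 : (1 : ℝ) ≤ X := by exact_mod_cast (by omega : 1 ≤ X)
    have h4 : Real.log ((AA a * X : ℕ) : ℝ) ≤ 2 * Real.log X := by
      have h5 : ((AA a * X : ℕ) : ℝ) ≤ (X : ℝ) ^ 2 := by
        have : (AA a : ℝ) ≤ X := by exact_mod_cast (by omega : AA a ≤ X)
        push_cast
        nlinarith
      calc Real.log ((AA a * X : ℕ) : ℝ) ≤ Real.log ((X : ℝ) ^ 2) :=
            Real.log_le_log (by push_cast; positivity) h5
        _ = 2 * Real.log X := by rw [Real.log_pow]; push_cast; ring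
    calc (AA a : ℝ) * ∑ M ∈ T, (1 : ℝ) / M ≤ AA a * (ε / (2 * AA a) * (2 * Real.log X)) :=
          mul_le_mul_of_nonneg_left (hT1.trans (mul_le_mul_of_nonneg_left h4 (by positivity))) hA0.le
      _ = ε * Real.log X := by field_simp
  · intro N hN hNT α hM y hy
    rw [mem_Icc] at hN
    refine SL_le b ha y α _ fun j _ => ?_
    have h2 := h1 (AA a * N) (mem_Icc.2 ⟨Nat.mul_pos hA hN.1, Nat.mul_le_mul_left _ hN.2⟩)
      (fun h3 => hNT (mem_filter.2 ⟨mem_Icc.2 hN, h3⟩)) ((α + j) / AA a) (Minor_dil hA j hM) (AA a * y)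
      (Nat.mul_le_mul_left _ hy)
    refine h2.trans (le_of_eq ?_)
    push_cast
    field_simp

end

open Classical in
lemma bohr_real (ε : ℝ) (hε : 0 < ε) : ∃ (J : ℕ) (κ : ℝ), 0 < κ ∧ ∀ (N y : ℕ) (F : ℕ → ℝ) (α : ℝ), y ≤ N →
    (∀ n, |F n| ≤ 1) → (∀ i : ℕ, 1 ≤ i → i ≤ J → ‖∑ n ∈ Icc 1 y, (F n : ℂ) * e (i * α * n)‖ ≤ κ * N) →
    (∀ i : ℕ, 1 ≤ i → i ≤ J → ‖∑ n ∈ Icc 1 y, e (i * α * n)‖ ≤ κ * N) → ∀ u v : ℝ, 0 ≤ u → u ≤ v → v ≤ 1 →
    |∑ n ∈ (Icc 1 y).filter (fun n : ℕ => u ≤ Int.fract (α * n) ∧ Int.fract (α * n) < v), F n -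
      (v - u) * ∑ n ∈ Icc 1 y, F n| ≤ ε * N := by
  obtain ⟨J, κ, hκ, hJ⟩ := equi (ε / 3) (by positivity)
  refine ⟨J, κ, hκ, fun N y F α hy hF b1 b3 u v hu huv hv => ?_⟩
  set w : ℕ → ℝ := fun n => (1 + F n) / 2 with hw
  have c1 : ∀ n, 0 ≤ w n ∧ w n ≤ 1 := by
    intro n
    have := abs_le.1 (hF n)
    constructor
    · show 0 ≤ (1 + F n) / 2
      linarith
    · show (1 + F n) / 2 ≤ 1
      linarith
  have d1 : SmallSums J κ N y w α := by
    intro i hi1 hi2
    have e1 : ∑ n ∈ Icc 1 y, (w n : ℂ) * e (i * α * n) = (1 / 2) * ∑ n ∈ Icc 1 y, e (i * α * n) +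
        (1 / 2) * ∑ n ∈ Icc 1 y, (F n : ℂ) * e (i * α * n) := by
      rw [mul_sum, mul_sum, ← sum_add_distrib]
      refine sum_congr rfl fun n _ => ?_
      have e2 : (w n : ℂ) = (1 + (F n : ℂ)) / 2 := by
        show (((1 + F n) / 2 : ℝ) : ℂ) = _
        push_cast
        rfl
      rw [e2]
      ring
    rw [e1]
    refine (norm_add_le _ _).trans ?_
    rw [norm_mul, norm_mul]
    have n2' : ‖(1 / 2 : ℂ)‖ = 1 / 2 := by norm_num
    rw [n2']
    have := b1 i hi1 hi2
    have := b3 i hi1 hi2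
    linarith
  have d3 : SmallSums J κ N y (fun _ => 1) α := by
    intro i hi1 hi2
    refine le_trans (le_of_eq ?_) (b3 i hi1 hi2)
    congr 1
    refine sum_congr rfl fun n _ => ?_
    rw [Complex.ofReal_one, one_mul]
  have f1 := hJ N y w α hy c1 d1 u v hu huv hv
  have f3 := hJ N y (fun _ => 1) α hy (fun _ => ⟨zero_le_one, le_rfl⟩) d3 u v hu huv hv
  set χ : ℕ → ℝ := fun n => if u ≤ Int.fract (α * n) ∧ Int.fract (α * n) < v then 1 else 0 with hχ
  have h1 : ∑ n ∈ (Icc 1 y).filter (fun n : ℕ => u ≤ Int.fract (α * n) ∧ Int.fract (α * n) < v), F n =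
      ∑ n ∈ Icc 1 y, F n * χ n := by
    rw [sum_filter]
    refine sum_congr rfl fun n _ => ?_
    show _ = F n * (if u ≤ Int.fract (α * n) ∧ Int.fract (α * n) < v then 1 else 0)
    split_ifs <;> simp
  have e2 : ∑ n ∈ Icc 1 y, w n * χ n = (1 / 2) * ∑ n ∈ Icc 1 y, 1 * χ n + (1 / 2) * ∑ n ∈ Icc 1 y, F n * χ n := by
    rw [mul_sum, mul_sum, ← sum_add_distrib]
    refine sum_congr rfl fun n _ => ?_
    show (1 + F n) / 2 * χ n = _
    ring
  have e3 : ∑ n ∈ Icc 1 y, w n = (1 / 2) * ∑ n ∈ Icc 1 y, (1 : ℝ) + (1 / 2) * ∑ n ∈ Icc 1 y, F n := by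
    rw [mul_sum, mul_sum, ← sum_add_distrib]
    refine sum_congr rfl fun n _ => ?_
    show (1 + F n) / 2 = _
    ring
  have h2 : ∑ n ∈ Icc 1 y, F n * χ n - (v - u) * ∑ n ∈ Icc 1 y, F n =
      2 * (∑ n ∈ Icc 1 y, w n * χ n - (v - u) * ∑ n ∈ Icc 1 y, w n) -
      (∑ n ∈ Icc 1 y, 1 * χ n - (v - u) * ∑ n ∈ Icc 1 y, (1 : ℝ)) := by
    rw [e2, e3]
    ring
  have g1 := abs_le.1 f1
  have g3 := abs_le.1 f3
  rw [h1, h2, abs_le]
  constructor <;> linarith [g1.1, g1.2, g3.1, g3.2]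

open Classical in
/-- **minor arcs and Bohr sets** for linear forms -/
theorem lin_unif {k : ℕ} (hk : 1 ≤ k) {a : Fin k → ℕ} (b : Fin k → ℕ) (ha : ∀ i, 1 ≤ a i) (ε : ℝ) (hε : 0 < ε) :
    ∃ R X₀ : ℕ, ∀ X : ℕ, X₀ ≤ X → ∃ T ⊆ Icc 1 X,
      ∑ N ∈ T, (1 : ℝ) / N ≤ ε * Real.log X ∧ ∀ N ∈ Icc 1 X, N ∉ T → ∀ α : ℝ, Minor R N α → ∀ y ≤ N,
        ‖SL a b y α‖ ≤ ε * N ∧ ∀ u v : ℝ, 0 ≤ u → u ≤ v → v ≤ 1 →
          |∑ n ∈ (Icc 1 y).filter (fun n : ℕ => u ≤ Int.fract (α * n) ∧ Int.fract (α * n) < v), (FL a b n : ℝ) -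
            (v - u) * ∑ n ∈ Icc 1 y, (FL a b n : ℝ)| ≤ ε * N := by
  obtain ⟨J, κ, hκ, hJ⟩ := bohr_real ε hε
  obtain ⟨R₁, X₁, h1⟩ := lin_minor hk b ha (ε / 2) (by positivity) (min ε κ) (lt_min hε hκ)
  obtain ⟨R₂, X₂, h2⟩ := phases 0 (ε / 2) (by positivity) κ hκ
  refine ⟨(J + 1) * (R₁ + R₂), X₁ + X₂, fun X hX => ?_⟩
  obtain ⟨T₁, hT₁, hs₁, h₁⟩ := h1 X (by omega)
  obtain ⟨T₂, hT₂, hs₂, h₂⟩ := h2 X (by omega)
  refine ⟨T₁ ∪ T₂, union_subset hT₁ hT₂, ?_, ?_⟩
  · have a2 : ∑ N ∈ T₁ ∪ T₂, (1 : ℝ) / N ≤ ∑ N ∈ T₁, (1 : ℝ) / N + ∑ N ∈ T₂, (1 : ℝ) / N := by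
      rw [← sum_union_inter]
      exact le_add_of_nonneg_right (sum_nonneg fun N _ => by positivity)
    linarith
  intro N hN hNT α hM y hy
  rw [mem_union, not_or] at hNT
  have hN0 : (0 : ℝ) ≤ N := Nat.cast_nonneg N
  have hle1 : R₁ ≤ (J + 1) * (R₁ + R₂) := le_trans (Nat.le_add_right _ _) (Nat.le_mul_of_pos_left _ (by omega))
  refine ⟨(h₁ N hN hNT.1 α (Minor_mono hle1 hM) y hy).trans (mul_le_mul_of_nonneg_right (min_le_left _ _) hN0), ?_⟩
  refine hJ N y (fun n => (FL a b n : ℝ)) α hy (fun n => (FL_abs a b n).le) ?_ ?_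
  · intro i hi1 hi2
    have h3 := Minor_mul i hi1 (hi2.trans (by omega)) hM
    have h4 := (h₁ N hN hNT.1 (i * α) (Minor_mono (by omega) h3) y hy).trans
      (mul_le_mul_of_nonneg_right (min_le_right _ _) hN0)
    refine le_trans (le_of_eq ?_) h4
    unfold SL
    congr 1
  · intro i hi1 hi2
    have h3 := Minor_mul i hi1 (hi2.trans (by omega)) hM
    have h4 := h₂ N hN hNT.2 (i * α) (Minor_mono (by omega) h3) y hy ∅ (empty_subset _)
    refine le_trans (le_of_eq ?_) h4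
    unfold Sm
    congr 1
    refine sum_congr rfl fun n _ => ?_
    unfold prodLam
    simp

/-- pullback by division -/
lemma LZ_div {E : Set ℕ} (hE : LZ E) (q : ℕ) (hq : 1 ≤ q) : LZ {N : ℕ | N / q ∈ E} := by
  classical
  rw [LZ_eps] at hE ⊢
  intro ε hε
  obtain ⟨X₁, h1⟩ := hE (ε / 2) (by positivity)
  obtain ⟨X₂, h2⟩ := (LZ_eps _).1 (LZ_fin q) (ε / 2) (by positivity)
  refine ⟨X₁ + X₂, fun X hX => ?_⟩
  have h3 := h1 X (by omega)
  have h4 := h2 X (by omega)
  have hq0 : (0 : ℝ) < q := by exact_mod_cast hq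
  have h5 : sE {N : ℕ | N / q ∈ E} X ≤ sE E X + sE {N : ℕ | N < q} X := by
    unfold sE
    rw [← sum_add_distrib]
    have h6 : ∀ N ∈ Icc 1 X, ind {N : ℕ | N / q ∈ E} N / N ≤
        (if q ≤ N then ind E (N / q) / (q * (N / q : ℕ) : ℝ) else 0) + ind {N : ℕ | N < q} N / N := by
      intro N hN
      rw [mem_Icc] at hN
      have hN0 : (0 : ℝ) < N := by exact_mod_cast hN.1
      by_cases h7 : q ≤ N
      · rw [if_pos h7]
        have e1 : ind {N : ℕ | N / q ∈ E} N = ind E (N / q) := rfl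
        rw [e1]
        have h8 : 0 < N / q := Nat.div_pos h7 (by omega)
        have h9 : (q * (N / q : ℕ) : ℝ) ≤ N := by exact_mod_cast Nat.mul_div_le N q
        have h10 : (0 : ℝ) < q * (N / q : ℕ) := by
          have : (0 : ℝ) < (N / q : ℕ) := by exact_mod_cast h8
          positivity
        have h11 : ind E (N / q) / N ≤ ind E (N / q) / (q * (N / q : ℕ) : ℝ) :=
          div_le_div_of_nonneg_left (ind_nonneg _ _) h10 h9
        have h12 : 0 ≤ ind {N : ℕ | N < q} N / N := div_nonneg (ind_nonneg _ _) hN0.le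
        linarith
      · rw [if_neg h7, zero_add]
        apply div_le_div_of_nonneg_right _ hN0.le
        have e1 : ind {N : ℕ | N < q} N = 1 := by
          unfold ind
          rw [if_pos]
          show N < q
          omega
        rw [e1]
        exact ind_le _ _
    refine (sum_le_sum h6).trans ?_
    rw [sum_add_distrib, sum_add_distrib]
    apply add_le_add _ le_rfl
    rw [← sum_filter]
    have h7 : ∑ N ∈ (Icc 1 X).filter (fun N => q ≤ N), ind E (N / q) / (q * (N / q : ℕ) : ℝ) =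
        ∑ M ∈ Icc 1 X, ∑ N ∈ ((Icc 1 X).filter (fun N => q ≤ N)).filter (fun N => N / q = M),
          ind E (N / q) / (q * (N / q : ℕ) : ℝ) := by
      rw [sum_fiberwise_of_maps_to]
      intro N hN
      rw [mem_filter, mem_Icc] at hN
      rw [mem_Icc]
      exact ⟨Nat.div_pos hN.2 (by omega), (Nat.div_le_self N q).trans hN.1.2⟩
    rw [h7]
    refine sum_le_sum fun M hM => ?_
    rw [mem_Icc] at hM
    have hM0 : (0 : ℝ) < M := by exact_mod_cast hM.1
    have h8 : ∀ N ∈ ((Icc 1 X).filter (fun N => q ≤ N)).filter (fun N => N / q = M),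
        ind E (N / q) / (q * (N / q : ℕ) : ℝ) = ind E M / (q * M) := by
      intro N hN
      rw [(mem_filter.1 hN).2]
    rw [sum_congr rfl h8, sum_const, nsmul_eq_mul]
    have h9 : ((((Icc 1 X).filter (fun N => q ≤ N)).filter (fun N => N / q = M)).card : ℝ) ≤ q := by
      have h10 : ((Icc 1 X).filter (fun N => q ≤ N)).filter (fun N => N / q = M) ⊆
          (range q).image (fun r => q * M + r) := by
        intro N hN
        rw [mem_filter] at hN
        rw [mem_image]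
        refine ⟨N % q, mem_range.2 (Nat.mod_lt N (by omega)), ?_⟩
        rw [← hN.2]
        exact Nat.div_add_mod N q
      have h11 := (card_le_card h10).trans card_image_le
      rw [card_range] at h11
      exact_mod_cast h11
    calc _ ≤ (q : ℝ) * (ind E M / (q * M)) :=
          mul_le_mul_of_nonneg_right h9 (div_nonneg (ind_nonneg _ _) (by positivity))
      _ = ind E M / M := by field_simp
  linarith

/-- the sum over a progression and the sum of the linear forms -/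
lemma prog_sum (G : ℕ → ℂ) (hG : ∀ n, ‖G n‖ ≤ 1) (q r N : ℕ) (hr : r < q) :
    ‖∑ m ∈ (Icc 1 N).filter (fun m => m % q = r), G m‖ ≤ ‖∑ n ∈ Icc 1 (N / q), G (q * n + r)‖ + 2 := by
  have hq : 0 < q := by omega
  set M := N / q with hM
  have h0 : ∑ m ∈ (Icc 1 N).filter (fun m => m % q = r), G m =
      ∑ n ∈ (range (M + 1)).filter (fun n => 1 ≤ q * n + r ∧ q * n + r ≤ N), G (q * n + r) := by
    symm
    refine sum_nbij' (fun n => q * n + r) (fun m => m / q) ?_ ?_ ?_ ?_ ?_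
    · intro n hn
      rw [mem_filter] at hn
      rw [mem_filter, mem_Icc]
      refine ⟨hn.2, ?_⟩
      rw [Nat.mul_add_mod, Nat.mod_eq_of_lt hr]
    · intro m hm
      rw [mem_filter, mem_Icc] at hm
      rw [mem_filter, mem_range]
      have h3 := Nat.div_add_mod m q
      rw [hm.2] at h3
      refine ⟨Nat.lt_succ_of_le (Nat.div_le_div_right hm.1.2), ?_⟩
      rw [h3]
      exact hm.1
    · intro n hn
      show (q * n + r) / q = n
      rw [Nat.mul_add_div hq, Nat.div_eq_of_lt hr, add_zero]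
    · intro m hm
      rw [mem_filter] at hm
      have h3 := Nat.div_add_mod m q
      rw [hm.2] at h3
      exact h3
    · intro n _
      rfl
  set S₁ := (range (M + 1)).filter (fun n => 1 ≤ q * n + r ∧ q * n + r ≤ N) with hS₁
  have h1 : S₁ \ Icc 1 M ⊆ {0} := by
    intro n hn
    rw [Finset.mem_sdiff, hS₁, mem_filter, mem_range, mem_Icc] at hn
    rw [mem_singleton]
    omega
  have h2 : Icc 1 M \ S₁ ⊆ {M} := by
    intro n hn
    rw [Finset.mem_sdiff, hS₁, mem_filter, mem_range, mem_Icc] at hn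
    rw [mem_singleton]
    obtain ⟨⟨h3, h4⟩, h5⟩ := hn
    by_contra h6
    apply h5
    have h7 : n + 1 ≤ M := by omega
    have h8 : q * (n + 1) ≤ q * M := Nat.mul_le_mul_left q h7
    have h9 : q * M ≤ N := Nat.mul_div_le N q
    have h10 : q * (n + 1) = q * n + q := by ring
    refine ⟨by omega, ?_, ?_⟩
    · have : 0 < q * n := Nat.mul_pos hq (by omega)
      omega
    · omega
  have h3 : ∑ n ∈ S₁, G (q * n + r) + ∑ n ∈ Icc 1 M \ S₁, G (q * n + r) =
      ∑ n ∈ Icc 1 M, G (q * n + r) + ∑ n ∈ S₁ \ Icc 1 M, G (q * n + r) := by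
    rw [← sum_union disjoint_sdiff, ← sum_union disjoint_sdiff, union_sdiff_self_eq_union, union_sdiff_self_eq_union,
      union_comm]
  have small : ∀ (S : Finset ℕ) (x : ℕ), S ⊆ {x} → ‖∑ n ∈ S, G (q * n + r)‖ ≤ 1 := by
    intro S x hS
    refine (norm_sum_le _ _).trans ?_
    refine (sum_le_sum fun n _ => hG _).trans ?_
    rw [sum_const, nsmul_eq_mul, mul_one]
    have := card_le_card hS
    rw [card_singleton] at this
    exact_mod_cast this
  have h4 := small _ _ h1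
  have h5 := small _ _ h2
  rw [h0]
  have h6 : ∑ n ∈ S₁, G (q * n + r) = ∑ n ∈ Icc 1 M, G (q * n + r) + ∑ n ∈ S₁ \ Icc 1 M, G (q * n + r) -
      ∑ n ∈ Icc 1 M \ S₁, G (q * n + r) := by rw [← h3]; ring
  rw [h6]
  have h7 := norm_sub_le (∑ n ∈ Icc 1 M, G (q * n + r) + ∑ n ∈ S₁ \ Icc 1 M, G (q * n + r))
    (∑ n ∈ Icc 1 M \ S₁, G (q * n + r))
  have h8 := norm_add_le (∑ n ∈ Icc 1 M, G (q * n + r)) (∑ n ∈ S₁ \ Icc 1 M, G (q * n + r))
  linarith

/-- admissible systems of linear forms -/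
def Adm {k : ℕ} (a b : Fin k → ℕ) : Prop := (∀ i, 1 ≤ a i) ∧ ∀ i j, i ≠ j → a i * b j ≠ a j * b i

/-- **the sums without phases and with all phases, at almost all scales** -/
theorem lin_equiv {k : ℕ} (hk : 1 ≤ k) : List.TFAE [
    (∀ (q : ℕ) (b : Fin k → ℕ), 1 ≤ q → Function.Injective b → ∀ ε : ℝ, 0 < ε →
      LZ {N : ℕ | ε * N < |∑ n ∈ Icc 1 N, (FL (fun _ => q) b n : ℝ)|}),
    (∀ a b : Fin k → ℕ, Adm a b → ∀ ε : ℝ, 0 < ε →
      LZ {N : ℕ | ε * N < |∑ n ∈ Icc 1 N, (FL a b n : ℝ)|}),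
    ∀ a b : Fin k → ℕ, Adm a b → ∀ ε : ℝ, 0 < ε →
      LZ {N : ℕ | ∃ α : ℝ, ∃ y ≤ N, ε * N < ‖SL a b y α‖}] := by
  classical
  tfae_have 1 → 3 := by
    intro h a b hab ε hε
    obtain ⟨ha, hne⟩ := hab
    have hA := AA_pos ha
    have hA0 : (0 : ℝ) < AA a := by exact_mod_cast hA
    set G : Fin k → ℕ → ℂ := fun _ => lamC with hG
    have hDM : ∀ t, DM (G t) := fun _ => lamC_DM
    have hbb : ∀ i j, i ≠ j → bb a b i ≠ bb a b j := by
      intro i j hij heq
      apply hne i j hij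
      have h1 := AA_eq a i
      have h2 := AA_eq a j
      have hci := cc_pos ha i
      have hcj := cc_pos ha j
      have h3 : cc a i * b i = cc a j * b j := heq
      have h4 : cc a i * a i = cc a j * a j := by rw [← h1, ← h2]
      have h5 : (cc a i * cc a j) * (a i * b j) = (cc a i * cc a j) * (a j * b i) := by
        calc (cc a i * cc a j) * (a i * b j) = (cc a i * a i) * (cc a j * b j) := by ring
          _ = (cc a j * a j) * (cc a i * b i) := by rw [h4, h3]
          _ = (cc a i * cc a j) * (a j * b i) := by ring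
      exact Nat.eq_of_mul_eq_mul_left (Nat.mul_pos hci hcj) h5
    have h1 := (class_equiv hk (bb a b) (fun g => g = G) (by
      rintro g rfl t
      exact hDM t)).1 (by
      intro q r hq δ hδ
      -- progressions
      have hLZ : LZ {N : ℕ | δ * N < ‖∑ n ∈ (Icc 1 N).filter (fun n => n % q = r), Pd G (bb a b) n‖} := by
        rcases lt_or_ge r q with hr | hr
        · have h2 := h q (fun i => r + bb a b i) hq (fun i j heq => by
            by_contra hij
            have h3 : r + bb a b i = r + bb a b j := heq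
            exact hbb i j hij (by omega)) (δ / 2) (by positivity)
          refine LZ_mono ?_ (LZ_union (LZ_div h2 q hq) (LZ_fin ⌈4 / δ⌉₊))
          intro N hN
          by_contra hcon
          rw [Set.mem_union, not_or] at hcon
          obtain ⟨h3, h4⟩ := hcon
          have h4' : ⌈4 / δ⌉₊ ≤ N := by
            by_contra h4''
            push Not at h4''
            exact h4 h4''
          have h5 : 4 / δ ≤ N := (Nat.le_ceil _).trans (by exact_mod_cast h4')
          rw [div_le_iff₀ hδ] at h5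
          have h6 : |∑ n ∈ Icc 1 (N / q), (FL (fun _ => q) (fun i => r + bb a b i) n : ℝ)| ≤ δ / 2 * (N / q : ℕ) := by
            by_contra h7
            push Not at h7
            exact h3 h7
          have h7 := prog_sum (Pd G (bb a b)) (Pd_le (bb a b) hDM) q r N hr
          have h8 : ∑ n ∈ Icc 1 (N / q), Pd G (bb a b) (q * n + r) =
              ((∑ n ∈ Icc 1 (N / q), (FL (fun _ => q) (fun i => r + bb a b i) n : ℝ) : ℝ) : ℂ) := by
            push_cast
            refine sum_congr rfl fun n _ => ?_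
            unfold Pd FL
            rw [hG]
            push_cast
            refine prod_congr rfl fun i _ => ?_
            show lamC (q * n + r + bb a b i) = _
            unfold lamC
            rw [add_assoc]
          rw [h8, Complex.norm_real, Real.norm_eq_abs] at h7
          have h9 : ((N / q : ℕ) : ℝ) ≤ N := by exact_mod_cast Nat.div_le_self N q
          have h10 : δ / 2 * ((N / q : ℕ) : ℝ) ≤ δ / 2 * N := mul_le_mul_of_nonneg_left h9 (by positivity)
          have h11 : δ * N < ‖∑ n ∈ (Icc 1 N).filter (fun n => n % q = r), Pd G (bb a b) n‖ := hN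
          linarith
        · refine LZ_mono ?_ LZ_empty
          intro N hN
          have e1 : (Icc 1 N).filter (fun n => n % q = r) = ∅ := by
            apply filter_eq_empty_iff.2
            intro n _ hn
            have := Nat.mod_lt n hq
            omega
          have hN1 : δ * N < ‖∑ n ∈ (Icc 1 N).filter (fun n => n % q = r), Pd G (bb a b) n‖ := hN
          rw [e1] at hN1
          simp at hN1
          have : (0 : ℝ) ≤ δ * N := by positivity
          linarith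
      intro η hη
      obtain ⟨X₀, h2⟩ := (LZ_eps _).1 hLZ η hη
      refine ⟨X₀, fun X hX g hg => ?_⟩
      subst hg
      exact h2 X hX) (ε / AA a) (by positivity)
    have h2 : LZ {N : ℕ | ∃ α : ℝ, ∃ y ≤ N, ε / AA a * N < ‖Sg G (bb a b) y α‖} := by
      rw [LZ_eps]
      intro η hη
      obtain ⟨X₀, h3⟩ := h1 η hη
      exact ⟨X₀, fun X hX => h3 X hX G rfl⟩
    refine LZ_mono ?_ (LZ_pull h2 (AA a) 0 hA)
    rintro N ⟨α, y, hy, hbig⟩
    rw [Set.mem_ofPred_eq, add_zero]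
    by_contra hcon
    have h3 : ‖SL a b y α‖ ≤ ε * N := by
      refine SL_le b ha y α _ fun j _ => ?_
      by_contra h4
      push Not at h4
      apply hcon
      refine ⟨(α + j) / AA a, AA a * y, Nat.mul_le_mul_left _ hy, ?_⟩
      refine lt_of_le_of_lt (le_of_eq ?_) h4
      push_cast
      field_simp
    linarith
  tfae_have 3 → 2 := by
    intro h a b hab ε hε
    refine LZ_mono ?_ (h a b hab ε hε)
    intro N hN
    refine ⟨0, N, le_rfl, ?_⟩
    have h1 : SL a b N 0 = ((∑ n ∈ Icc 1 N, (FL a b n : ℝ) : ℝ) : ℂ) := by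
      unfold SL
      push_cast
      refine sum_congr rfl fun n _ => ?_
      rw [zero_mul, e_zero, mul_one]
    rw [h1, Complex.norm_real, Real.norm_eq_abs]
    exact hN
  tfae_have 2 → 1 := by
    intro h q b hq hb ε hε
    refine h (fun _ => q) b ⟨fun _ => hq, fun i j hij heq => hij (hb ?_)⟩ ε hε
    exact (Nat.eq_of_mul_eq_mul_left (show 0 < q by omega) heq).symm
  tfae_finish

end Pool.Agent.V1213.CH
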