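import Mathlib

/-!
Weighted form of Weyl's criterion with explicit quantifiers: if the weighted exponential sums with the
frequencies `j α`, `1 ≤ j ≤ J`, are small, the points `α n` are equidistributed with respect to the weights.
-/

set_option autoImplicit false

open Finset

namespace Pool.Agent.V1213.CH

/-- `e(x) = exp(2 π i x)` -/
noncomputable def e (x : ℝ) : ℂ := Complex.exp (2 * Real.pi * x * Complex.I)

lemma e_norm (x : ℝ) : ‖e x‖ = 1 := by
  unfold e
  have : (2 * Real.pi * x * Complex.I : ℂ) = ((2 * Real.pi * x : ℝ) : ℂ) * Complex.I := by push_cast; ring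
  rw [this, Complex.norm_exp_ofReal_mul_I]

lemma e_neg (x : ℝ) : e (-x) = (starRingEnd ℂ) (e x) := by
  unfold e
  rw [← Complex.exp_conj]
  congr 1
  simp only [map_mul, Complex.conj_I, Complex.conj_ofReal, map_ofNat]
  push_cast
  ring

lemma e_zero : e 0 = 1 := by unfold e; simp

/-- trigonometric approximation on the circle -/
lemma trig (F : C(AddCircle (1 : ℝ), ℂ)) (ε : ℝ) (hε : 0 < ε) : ∃ c : ℤ →₀ ℂ,
    ∀ x : ℝ, ‖F x - ∑ j ∈ c.support, c j * e (j * x)‖ ≤ ε := by
  have h1 : F ∈ (Submodule.span ℂ (Set.range (@fourier (1 : ℝ)))).topologicalClosure := by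
    rw [span_fourier_closure_eq_top]
    trivial
  have h2 : F ∈ closure ((Submodule.span ℂ (Set.range (@fourier (1 : ℝ)))) : Set C(AddCircle (1 : ℝ), ℂ)) := h1
  rw [Metric.mem_closure_iff] at h2
  obtain ⟨P, hP, hd⟩ := h2 ε hε
  rw [SetLike.mem_coe, Finsupp.mem_span_range_iff_exists_finsupp] at hP
  obtain ⟨c, hc⟩ := hP
  refine ⟨c, fun x => ?_⟩
  have h3 : P (x : AddCircle (1 : ℝ)) = ∑ j ∈ c.support, c j * e (j * x) := by
    rw [← hc, Finsupp.sum, ContinuousMap.sum_apply]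
    refine sum_congr rfl fun j _ => ?_
    rw [ContinuousMap.smul_apply, smul_eq_mul, fourier_coe_apply]
    unfold e
    congr 2
    push_cast
    ring
  rw [← h3]
  have h4 := ContinuousMap.dist_apply_le_dist (f := F) (g := P) (x : AddCircle (1 : ℝ))
  rw [dist_eq_norm] at h4
  exact h4.trans hd.le

lemma int_e (j : ℤ) (hj : j ≠ 0) : ∫ x in (0 : ℝ)..1, e (j * x) = 0 := by
  have hc : (2 * Real.pi * j * Complex.I : ℂ) ≠ 0 := by
    have h1 : (j : ℂ) ≠ 0 := by exact_mod_cast hj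
    have h2 : (Real.pi : ℂ) ≠ 0 := by exact_mod_cast Real.pi_ne_zero
    simp [h1, h2]
  have h1 : (fun x : ℝ => e (j * x)) = fun x : ℝ => Complex.exp ((2 * Real.pi * j * Complex.I) * x) := by
    funext x
    unfold e
    congr 1
    push_cast
    ring
  rw [h1, integral_exp_mul_complex hc]
  have h2 : Complex.exp (2 * Real.pi * j * Complex.I * ((1 : ℝ) : ℂ)) = 1 := by
    rw [Complex.exp_eq_one_iff]
    exact ⟨j, by push_cast; ring⟩
  rw [h2]
  simp

/-- the constant coefficient -/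
lemma coef (F : C(AddCircle (1 : ℝ), ℂ)) (ε : ℝ) (c : ℤ →₀ ℂ)
    (h : ∀ x : ℝ, ‖F x - ∑ j ∈ c.support, c j * e (j * x)‖ ≤ ε) :
    ‖(∫ x in (0 : ℝ)..1, F x) - c 0‖ ≤ ε := by
  have hFc : Continuous fun x : ℝ => F (x : AddCircle (1 : ℝ)) := F.continuous.comp (AddCircle.continuous_mk' 1)
  have hec : ∀ j : ℤ, Continuous fun x : ℝ => e (j * x) := by
    intro j
    unfold e
    fun_prop
  have hPc : Continuous fun x : ℝ => ∑ j ∈ c.support, c j * e (j * x) :=
    continuous_finsetSum _ fun j _ => continuous_const.mul (hec j)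
  have h1 : ∫ x in (0 : ℝ)..1, (∑ j ∈ c.support, c j * e (j * x)) = c 0 := by
    rw [intervalIntegral.integral_finsetSum (f := fun (j : ℤ) (x : ℝ) => c j * e (j * x))
      (fun j _ => (continuous_const.mul (hec j)).intervalIntegrable _ _)]
    have h2 : ∀ j ∈ c.support, ∫ x in (0 : ℝ)..1, c j * e (j * x) = if j = 0 then c 0 else 0 := by
      intro j _
      rw [intervalIntegral.integral_const_mul]
      split_ifs with h0
      · subst h0
        simp [e_zero]
      · rw [int_e j h0, mul_zero]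
    rw [sum_congr rfl h2, sum_ite_eq']
    split_ifs with h0
    · rfl
    · rw [Finsupp.notMem_support_iff] at h0
      exact h0.symm
  rw [← h1, ← intervalIntegral.integral_sub (hFc.intervalIntegrable _ _) (hPc.intervalIntegrable _ _)]
  have h3 := intervalIntegral.norm_integral_le_of_norm_le_const (a := (0 : ℝ)) (b := 1) (C := ε)
    (f := fun x : ℝ => F x - ∑ j ∈ c.support, c j * e (j * x)) (fun x _ => h x)
  simpa using h3

/-- the tent function with centre `j / K` -/
noncomputable def tent (K j : ℕ) (x : ℝ) : ℝ := max 0 (1 - |K * x - j|)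

lemma tent_cont (K j : ℕ) : Continuous (tent K j) := by
  unfold tent
  fun_prop

lemma tent_nonneg (K j : ℕ) (x : ℝ) : 0 ≤ tent K j x := le_max_left _ _

/-- the tent function on the circle -/
noncomputable def tentC (K j : ℕ) (h1 : 1 ≤ j) (h2 : j + 1 ≤ K) : C(AddCircle (1 : ℝ), ℂ) where
  toFun := AddCircle.liftIco 1 0 (fun x => (tent K j x : ℂ))
  continuous_toFun := by
    apply AddCircle.liftIco_zero_continuous
    · have e1 : tent K j 0 = 0 := by
        unfold tent
        have : (1 : ℝ) ≤ j := by exact_mod_cast h1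
        rw [max_eq_left]
        rw [mul_zero, zero_sub, abs_neg, abs_of_nonneg (Nat.cast_nonneg j)]
        linarith
      have e2 : tent K j 1 = 0 := by
        unfold tent
        have : (j : ℝ) + 1 ≤ K := by exact_mod_cast h2
        rw [max_eq_left]
        rw [mul_one, abs_of_nonneg (by linarith)]
        linarith
      rw [e1, e2]
    · exact (Complex.continuous_ofReal.comp (tent_cont K j)).continuousOn

lemma tentC_apply (K j : ℕ) (h1 : 1 ≤ j) (h2 : j + 1 ≤ K) (x : ℝ) :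
    tentC K j h1 h2 (x : AddCircle (1 : ℝ)) = (tent K j (Int.fract x) : ℂ) := by
  have h3 : (x : AddCircle (1 : ℝ)) = ((Int.fract x : ℝ) : AddCircle (1 : ℝ)) := by
    rw [← sub_eq_zero, ← AddCircle.coe_sub, Int.self_sub_fract, AddCircle.coe_eq_zero_iff]
    exact ⟨⌊x⌋, by simp⟩
  rw [h3]
  show AddCircle.liftIco 1 0 (fun x => (tent K j x : ℂ)) ((Int.fract x : ℝ) : AddCircle (1 : ℝ)) = _
  rw [AddCircle.liftIco_coe_apply]
  exact ⟨Int.fract_nonneg x, by rw [zero_add]; exact Int.fract_lt_one x⟩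

lemma tent_int (K j : ℕ) (h1 : 1 ≤ j) (h2 : j + 1 ≤ K) : ∫ x in (0 : ℝ)..1, tent K j x = 1 / K := by
  have hK : (0 : ℝ) < K := by exact_mod_cast (by omega : 0 < K)
  have hj : (1 : ℝ) ≤ j := by exact_mod_cast h1
  have hjK : (j : ℝ) + 1 ≤ K := by exact_mod_cast h2
  have e1 : ∫ x in (0 : ℝ)..1, tent K j x = (1 / K) * ∫ y in (0 : ℝ)..K, max 0 (1 - |y - j|) := by
    have := intervalIntegral.integral_comp_mul_left (a := 0) (b := 1) (fun y : ℝ => max 0 (1 - |y - j|)) hK.ne'
    unfold tent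
    rw [this, mul_zero, mul_one, smul_eq_mul, one_div]
  rw [e1]
  have hi : ∀ a b : ℝ, IntervalIntegrable (fun y : ℝ => max 0 (1 - |y - j|)) MeasureTheory.volume a b := by
    intro a b
    apply Continuous.intervalIntegrable
    fun_prop
  rw [← intervalIntegral.integral_add_adjacent_intervals (hi 0 (j - 1)) (hi (j - 1) K),
    ← intervalIntegral.integral_add_adjacent_intervals (hi (j - 1) j) (hi j K),
    ← intervalIntegral.integral_add_adjacent_intervals (hi j (j + 1)) (hi (j + 1) K)]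
  have i1 : ∫ y in (0 : ℝ)..(j - 1), max 0 (1 - |y - j|) = 0 := by
    rw [intervalIntegral.integral_congr (g := fun _ => (0 : ℝ))]
    · simp
    · intro y hy
      rw [Set.uIcc_of_le (by linarith)] at hy
      show max 0 (1 - |y - j|) = 0
      rw [max_eq_left]
      rw [abs_of_nonpos (by linarith [hy.2])]
      linarith [hy.2]
  have i4 : ∫ y in ((j : ℝ) + 1)..K, max 0 (1 - |y - j|) = 0 := by
    rw [intervalIntegral.integral_congr (g := fun _ => (0 : ℝ))]
    · simp
    · intro y hy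
      rw [Set.uIcc_of_le (by linarith)] at hy
      show max 0 (1 - |y - j|) = 0
      rw [max_eq_left]
      rw [abs_of_nonneg (by linarith [hy.1])]
      linarith [hy.1]
  have i2 : ∫ y in ((j : ℝ) - 1)..j, max 0 (1 - |y - j|) = 1 / 2 := by
    rw [intervalIntegral.integral_congr (g := fun y => y - (j - 1))]
    · rw [intervalIntegral.integral_sub (by simp) (by simp), integral_id]
      simp
      ring
    · intro y hy
      rw [Set.uIcc_of_le (by linarith)] at hy
      show max 0 (1 - |y - j|) = y - (j - 1)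
      rw [abs_of_nonpos (by linarith [hy.2]), max_eq_right (by linarith [hy.1])]
      ring
  have i3 : ∫ y in (j : ℝ)..(j + 1), max 0 (1 - |y - j|) = 1 / 2 := by
    rw [intervalIntegral.integral_congr (g := fun y => (j + 1) - y)]
    · rw [intervalIntegral.integral_sub (by simp) (by simp), integral_id]
      simp
      ring
    · intro y hy
      rw [Set.uIcc_of_le (by linarith)] at hy
      show max 0 (1 - |y - j|) = (j + 1) - y
      rw [abs_of_nonneg (by linarith [hy.1]), max_eq_right (by linarith [hy.2])]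
      ring
  rw [i1, i2, i3, i4]
  ring

/-- the weighted sums with the frequencies `i α`, `1 ≤ i ≤ J`, are small -/
def SmallSums (J : ℕ) (κ : ℝ) (N y : ℕ) (w : ℕ → ℝ) (α : ℝ) : Prop :=
  ∀ i : ℕ, 1 ≤ i → i ≤ J → ‖∑ n ∈ Icc 1 y, (w n : ℂ) * e (i * α * n)‖ ≤ κ * N

lemma tent_low (K j : ℕ) (h1 : 1 ≤ j) (h2 : j + 1 ≤ K) (ε : ℝ) (hε : 0 < ε) :
    ∃ (J : ℕ) (κ : ℝ), 0 < κ ∧ ∀ (N y : ℕ) (w : ℕ → ℝ) (α : ℝ), y ≤ N → (∀ n, 0 ≤ w n ∧ w n ≤ 1) →
      SmallSums J κ N y w α →
      (∑ n ∈ Icc 1 y, w n) / K - ε * N ≤ ∑ n ∈ Icc 1 y, w n * tent K j (Int.fract (α * n)) := by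
  set F := tentC K j h1 h2 with hF
  obtain ⟨c, hc⟩ := trig F (ε / 4) (by positivity)
  have h0 := coef F (ε / 4) c hc
  have hK : (0 : ℝ) < K := by exact_mod_cast (by omega : 0 < K)
  have hint : ∫ x in (0 : ℝ)..1, F x = ((1 / K : ℝ) : ℂ) := by
    rw [← tent_int K j h1 h2, ← intervalIntegral.integral_ofReal]
    apply intervalIntegral.integral_congr
    intro x hx
    rw [Set.uIcc_of_le (by norm_num)] at hx
    show F (x : AddCircle (1 : ℝ)) = ((tent K j x : ℝ) : ℂ)
    rw [hF, tentC_apply]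
    rcases eq_or_lt_of_le hx.2 with h | h
    · rw [h, Int.fract_one]
      have e1 : tent K j 0 = 0 := by
        unfold tent
        have : (1 : ℝ) ≤ j := by exact_mod_cast h1
        rw [max_eq_left]
        rw [mul_zero, zero_sub, abs_neg, abs_of_nonneg (Nat.cast_nonneg j)]
        linarith
      have e2 : tent K j 1 = 0 := by
        unfold tent
        have : (j : ℝ) + 1 ≤ K := by exact_mod_cast h2
        rw [max_eq_left]
        rw [mul_one, abs_of_nonneg (by linarith)]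
        linarith
      rw [e1, e2]
    · rw [Int.fract_eq_self.2 ⟨hx.1, h⟩]
  rw [hint] at h0
  set C : ℝ := ∑ i ∈ c.support, ‖c i‖ with hC
  have hC0 : 0 ≤ C := sum_nonneg fun _ _ => norm_nonneg _
  refine ⟨c.support.sup Int.natAbs, ε / (4 * (C + 1)), by positivity, fun N y w α hyN hw hS => ?_⟩
  set W : ℝ := ∑ n ∈ Icc 1 y, w n with hW
  have hN0 : (0 : ℝ) ≤ N := Nat.cast_nonneg N
  have hW0 : 0 ≤ W := sum_nonneg fun n _ => (hw n).1
  have hWN : W ≤ N := by
    calc W ≤ ∑ n ∈ Icc 1 y, (1 : ℝ) := sum_le_sum fun n _ => (hw n).2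
      _ = y := by simp
      _ ≤ N := by exact_mod_cast hyN
  have hSj : ∀ i ∈ c.support, i ≠ 0 → ‖∑ n ∈ Icc 1 y, (w n : ℂ) * e (i * (α * n))‖ ≤ ε / (4 * (C + 1)) * N := by
    intro i hi hi0
    have hle : i.natAbs ≤ c.support.sup Int.natAbs := le_sup (f := Int.natAbs) hi
    have h3 := hS i.natAbs (by omega) hle
    rcases le_or_gt 0 i with hp | hn
    · have e1 : ((i.natAbs : ℕ) : ℝ) = (i : ℝ) := by
        rw [Nat.cast_natAbs, abs_of_nonneg hp]
      rw [e1] at h3
      refine le_trans (le_of_eq ?_) h3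
      congr 1
      refine sum_congr rfl fun n _ => ?_
      rw [mul_assoc (i : ℝ)]
    · have e1 : ((i.natAbs : ℕ) : ℝ) = -(i : ℝ) := by
        rw [Nat.cast_natAbs, abs_of_neg hn]
        push_cast
        ring
      rw [e1] at h3
      refine le_trans (le_of_eq ?_) h3
      rw [← Complex.norm_conj]
      congr 1
      rw [map_sum]
      refine sum_congr rfl fun n _ => ?_
      rw [map_mul, Complex.conj_ofReal, ← e_neg]
      congr 2
      ring
  have key : ‖∑ n ∈ Icc 1 y, (w n : ℂ) * F (((α * n : ℝ)) : AddCircle (1 : ℝ)) - ((W / K : ℝ) : ℂ)‖ ≤ ε * N := by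
    have e1 : ∑ n ∈ Icc 1 y, (w n : ℂ) * F (((α * n : ℝ)) : AddCircle (1 : ℝ)) - ((W / K : ℝ) : ℂ) =
        ∑ n ∈ Icc 1 y, (w n : ℂ) * (F (((α * n : ℝ)) : AddCircle (1 : ℝ)) -
          ∑ i ∈ c.support, c i * e (i * (α * n))) +
        (∑ i ∈ c.support, c i * ∑ n ∈ Icc 1 y, (w n : ℂ) * e (i * (α * n)) - c 0 * W) +
        (c 0 - ((1 / K : ℝ) : ℂ)) * W := by
      have e2 : ∑ i ∈ c.support, c i * ∑ n ∈ Icc 1 y, (w n : ℂ) * e (i * (α * n)) =
          ∑ n ∈ Icc 1 y, (w n : ℂ) * ∑ i ∈ c.support, c i * e (i * (α * n)) := by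
        simp_rw [mul_sum]
        rw [sum_comm]
        refine sum_congr rfl fun n _ => sum_congr rfl fun i _ => ?_
        ring
      rw [e2]
      simp_rw [mul_sub]
      rw [sum_sub_distrib]
      push_cast
      ring
    have n1 : ‖∑ n ∈ Icc 1 y, (w n : ℂ) * (F (((α * n : ℝ)) : AddCircle (1 : ℝ)) -
          ∑ i ∈ c.support, c i * e (i * (α * n)))‖ ≤ ε / 4 * N := by
      refine (norm_sum_le _ _).trans ?_
      calc ∑ n ∈ Icc 1 y, ‖(w n : ℂ) * (F (((α * n : ℝ)) : AddCircle (1 : ℝ)) -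
          ∑ i ∈ c.support, c i * e (i * (α * n)))‖ ≤ ∑ n ∈ Icc 1 y, ε / 4 := by
            refine sum_le_sum fun n _ => ?_
            rw [norm_mul, Complex.norm_real, Real.norm_of_nonneg (hw n).1]
            have h4 := hc (α * n)
            calc w n * _ ≤ 1 * (ε / 4) := mul_le_mul (hw n).2 h4 (norm_nonneg _) zero_le_one
              _ = ε / 4 := one_mul _
        _ = y * (ε / 4) := by simp
        _ ≤ ε / 4 * N := by
            rw [mul_comm]
            apply mul_le_mul_of_nonneg_left _ (by positivity)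
            exact_mod_cast hyN
    have n2 : ‖∑ i ∈ c.support, c i * ∑ n ∈ Icc 1 y, (w n : ℂ) * e (i * (α * n)) - c 0 * W‖ ≤ ε / 4 * N := by
      have e3 : ∑ i ∈ c.support, c i * ∑ n ∈ Icc 1 y, (w n : ℂ) * e (i * (α * n)) - c 0 * W =
          ∑ i ∈ c.support, (if i = 0 then 0 else c i * ∑ n ∈ Icc 1 y, (w n : ℂ) * e (i * (α * n))) := by
        have e4 : c 0 * W = ∑ i ∈ c.support, (if i = 0 then c 0 * (W : ℂ) else 0) := by
          rw [sum_ite_eq']
          split_ifs with h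
          · rfl
          · rw [Finsupp.notMem_support_iff] at h
            rw [h, zero_mul]
        rw [e4, ← sum_sub_distrib]
        refine sum_congr rfl fun i _ => ?_
        split_ifs with h
        · rw [h]
          have : ∑ n ∈ Icc 1 y, (w n : ℂ) * e (((0 : ℤ) : ℝ) * (α * n)) = (W : ℂ) := by
            rw [hW]
            push_cast
            refine sum_congr rfl fun n _ => ?_
            rw [zero_mul, e_zero, mul_one]
          rw [this]
          ring
        · ring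
      rw [e3]
      refine (norm_sum_le _ _).trans ?_
      calc ∑ i ∈ c.support, ‖(if i = 0 then 0 else c i * ∑ n ∈ Icc 1 y, (w n : ℂ) * e (i * (α * n)))‖ ≤
          ∑ i ∈ c.support, ‖c i‖ * (ε / (4 * (C + 1)) * N) := by
            refine sum_le_sum fun i hi => ?_
            split_ifs with h
            · rw [norm_zero]
              positivity
            · rw [norm_mul]
              exact mul_le_mul_of_nonneg_left (hSj i hi h) (norm_nonneg _)
        _ = C * (ε / (4 * (C + 1)) * N) := by rw [← sum_mul]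
        _ = (C / (C + 1)) * (ε / 4 * N) := by field_simp
        _ ≤ 1 * (ε / 4 * N) := by
            apply mul_le_mul_of_nonneg_right _ (by positivity)
            rw [div_le_one (by positivity)]
            linarith
        _ = ε / 4 * N := one_mul _
    have n3 : ‖(c 0 - ((1 / K : ℝ) : ℂ)) * W‖ ≤ ε / 4 * N := by
      rw [norm_mul, norm_sub_rev, Complex.norm_real, Real.norm_of_nonneg hW0]
      exact mul_le_mul h0 hWN hW0 (by positivity)
    rw [e1]
    refine (norm_add₃_le).trans ?_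
    have : 0 ≤ ε * N := by positivity
    linarith
  have h5 : ∑ n ∈ Icc 1 y, (w n : ℂ) * F (((α * n : ℝ)) : AddCircle (1 : ℝ)) =
      ((∑ n ∈ Icc 1 y, w n * tent K j (Int.fract (α * n)) : ℝ) : ℂ) := by
    push_cast
    refine sum_congr rfl fun n _ => ?_
    rw [hF, tentC_apply]
  rw [h5, ← Complex.ofReal_sub, Complex.norm_real, Real.norm_eq_abs, abs_le] at key
  linarith [key.1]

lemma tents_low (K M : ℕ) (ε : ℝ) (hε : 0 < ε) :
    ∃ (J : ℕ) (κ : ℝ), 0 < κ ∧ ∀ (N y : ℕ) (w : ℕ → ℝ) (α : ℝ), y ≤ N → (∀ n, 0 ≤ w n ∧ w n ≤ 1) →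
      SmallSums J κ N y w α → ∀ j < M, 1 ≤ j → j + 1 ≤ K →
      (∑ n ∈ Icc 1 y, w n) / K - ε * N ≤ ∑ n ∈ Icc 1 y, w n * tent K j (Int.fract (α * n)) := by
  induction M with
  | zero => exact ⟨0, 1, one_pos, fun N y w α _ _ _ j hj => absurd hj (by omega)⟩
  | succ M ih =>
    obtain ⟨J, κ, hκ, h⟩ := ih
    by_cases hM : 1 ≤ M ∧ M + 1 ≤ K
    · obtain ⟨J', κ', hκ', h'⟩ := tent_low K M hM.1 hM.2 ε hε
      refine ⟨max J J', min κ κ', lt_min hκ hκ', fun N y w α hyN hw hS j hj h1 h2 => ?_⟩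
      have hN0 : (0 : ℝ) ≤ N := Nat.cast_nonneg N
      rcases Nat.lt_succ_iff_lt_or_eq.1 hj with hj | rfl
      · refine h N y w α hyN hw (fun i hi1 hi2 => ?_) j hj h1 h2
        exact (hS i hi1 (hi2.trans (le_max_left _ _))).trans (mul_le_mul_of_nonneg_right (min_le_left _ _) hN0)
      · refine h' N y w α hyN hw (fun i hi1 hi2 => ?_)
        exact (hS i hi1 (hi2.trans (le_max_right _ _))).trans (mul_le_mul_of_nonneg_right (min_le_right _ _) hN0)
    · refine ⟨J, κ, hκ, fun N y w α hyN hw hS j hj h1 h2 => ?_⟩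
      rcases Nat.lt_succ_iff_lt_or_eq.1 hj with hj | rfl
      · exact h N y w α hyN hw hS j hj h1 h2
      · exact absurd ⟨h1, h2⟩ hM

lemma tents_le (s : Finset ℕ) (t : ℝ) (ht : 0 ≤ t) : ∑ j ∈ s, max 0 (1 - |t - j|) ≤ 1 := by
  set m := ⌊t⌋₊ with hm
  have h1 : (m : ℝ) ≤ t := Nat.floor_le ht
  have h2 : t < m + 1 := Nat.lt_floor_add_one t
  have h3 : ∑ j ∈ s, max 0 (1 - |t - j|) ≤ ∑ j ∈ s ∪ {m, m + 1}, max 0 (1 - |t - j|) :=
    sum_le_sum_of_subset_of_nonneg subset_union_left fun _ _ _ => le_max_left _ _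
  have h4 : ∑ j ∈ ({m, m + 1} : Finset ℕ), max 0 (1 - |t - j|) = ∑ j ∈ s ∪ {m, m + 1}, max 0 (1 - |t - j|) := by
    apply sum_subset subset_union_right
    intro j _ hj
    rw [mem_insert, mem_singleton, not_or] at hj
    rw [max_eq_left]
    rcases lt_or_gt_of_ne hj.1 with h | h
    · have : (j : ℝ) + 1 ≤ m := by exact_mod_cast h
      rw [abs_of_nonneg (by linarith)]
      linarith
    · have : (m : ℝ) + 2 ≤ j := by exact_mod_cast (by omega : m + 2 ≤ j)
      rw [abs_of_nonpos (by linarith)]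
      linarith
  rw [← h4] at h3
  refine h3.trans ?_
  rw [sum_pair (by omega)]
  push_cast
  rw [abs_of_nonneg (by linarith), abs_of_nonpos (by linarith), max_eq_right (by linarith),
    max_eq_right (by linarith)]
  linarith

open Classical in
lemma low_int (ε : ℝ) (hε : 0 < ε) :
    ∃ (J : ℕ) (κ : ℝ), 0 < κ ∧ ∀ (N y : ℕ) (w : ℕ → ℝ) (α : ℝ), y ≤ N → (∀ n, 0 ≤ w n ∧ w n ≤ 1) →
      SmallSums J κ N y w α → ∀ u v : ℝ, 0 ≤ u → u ≤ v → v ≤ 1 →
      (v - u) * (∑ n ∈ Icc 1 y, w n) - ε * N ≤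
        ∑ n ∈ Icc 1 y, w n * (if u ≤ Int.fract (α * n) ∧ Int.fract (α * n) < v then 1 else 0) := by
  obtain ⟨K, hK⟩ := exists_nat_gt (6 / ε)
  have hK0 : (0 : ℝ) < K := lt_trans (by positivity) hK
  have hK3 : 3 / K ≤ ε / 2 := by
    rw [div_le_iff₀ hK0]
    rw [div_lt_iff₀ hε] at hK
    nlinarith
  obtain ⟨J, κ, hκ, h⟩ := tents_low K K (ε / (2 * K)) (by positivity)
  refine ⟨J, κ, hκ, fun N y w α hyN hw hS u v hu huv hv => ?_⟩
  have h1 := h N y w α hyN hw hS
  set W : ℝ := ∑ n ∈ Icc 1 y, w n with hW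
  have hN0 : (0 : ℝ) ≤ N := Nat.cast_nonneg N
  have hW0 : 0 ≤ W := sum_nonneg fun n _ => (hw n).1
  have hWN : W ≤ N := by
    calc W ≤ ∑ n ∈ Icc 1 y, (1 : ℝ) := sum_le_sum fun n _ => (hw n).2
      _ = y := by simp
      _ ≤ N := by exact_mod_cast hyN
  set a := ⌈(K : ℝ) * u⌉₊ with ha
  set b := ⌊(K : ℝ) * v⌋₊ with hb
  have ha1 : (K : ℝ) * u ≤ a := Nat.le_ceil _
  have ha2 : (a : ℝ) < K * u + 1 := Nat.ceil_lt_add_one (by positivity)
  have hb1 : (b : ℝ) ≤ K * v := Nat.floor_le (by nlinarith)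
  have hb2 : (K : ℝ) * v < b + 1 := Nat.lt_floor_add_one _
  have hbK : b ≤ K := by
    have : (b : ℝ) ≤ K := hb1.trans (by nlinarith)
    exact_mod_cast this
  set S := Icc (a + 1) (b - 1) with hSd
  have hS1 : ∀ j ∈ S, 1 ≤ j ∧ j + 1 ≤ K ∧ (a : ℝ) + 1 ≤ j ∧ (j : ℝ) + 1 ≤ b := by
    intro j hj
    rw [hSd, mem_Icc] at hj
    refine ⟨by omega, by omega, by exact_mod_cast hj.1, ?_⟩
    exact_mod_cast (by omega : j + 1 ≤ b)
  have hcard1 : (K : ℝ) * (v - u) - 3 ≤ (S.card : ℝ) := by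
    have h2 : S.card + (a + 1) ≥ b := by
      rw [hSd, Nat.card_Icc]
      omega
    have h3 : (b : ℝ) ≤ S.card + (a + 1) := by exact_mod_cast h2
    nlinarith
  have hcard2 : (S.card : ℝ) ≤ K := by
    have : S.card ≤ K := by
      rw [hSd, Nat.card_Icc]
      omega
    exact_mod_cast this
  have h2 : ∑ n ∈ Icc 1 y, w n * ∑ j ∈ S, tent K j (Int.fract (α * n)) ≤
      ∑ n ∈ Icc 1 y, w n * (if u ≤ Int.fract (α * n) ∧ Int.fract (α * n) < v then 1 else 0) := by
    refine sum_le_sum fun n _ => mul_le_mul_of_nonneg_left ?_ (hw n).1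
    set x := Int.fract (α * n) with hx
    have hx0 : 0 ≤ x := Int.fract_nonneg _
    split_ifs with hc
    · exact tents_le S (K * x) (by positivity)
    · apply le_of_eq
      apply sum_eq_zero
      intro j hj
      obtain ⟨-, -, h3, h4⟩ := hS1 j hj
      unfold tent
      rw [max_eq_left]
      rcases not_and_or.1 hc with h5 | h5
      · push Not at h5
        have h6 : (K : ℝ) * x ≤ K * u := mul_le_mul_of_nonneg_left h5.le hK0.le
        rw [abs_of_nonpos (by linarith)]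
        linarith
      · push Not at h5
        have h6 : (K : ℝ) * v ≤ K * x := mul_le_mul_of_nonneg_left h5 hK0.le
        rw [abs_of_nonneg (by linarith)]
        linarith
  refine le_trans ?_ h2
  have h3 : ∑ n ∈ Icc 1 y, w n * ∑ j ∈ S, tent K j (Int.fract (α * n)) =
      ∑ j ∈ S, ∑ n ∈ Icc 1 y, w n * tent K j (Int.fract (α * n)) := by
    simp_rw [mul_sum]
    rw [sum_comm]
  rw [h3]
  have h4 : (S.card : ℝ) * (W / K - ε / (2 * K) * N) ≤
      ∑ j ∈ S, ∑ n ∈ Icc 1 y, w n * tent K j (Int.fract (α * n)) := by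
    rw [← nsmul_eq_mul]
    apply card_nsmul_le_sum
    intro j hj
    obtain ⟨h5, h6, -, -⟩ := hS1 j hj
    exact h1 j (by omega) h5 h6
  refine le_trans ?_ h4
  have h5 : (S.card : ℝ) * (W / K) ≥ (K * (v - u) - 3) * (W / K) :=
    mul_le_mul_of_nonneg_right hcard1 (by positivity)
  have h6 : (S.card : ℝ) * (ε / (2 * K) * N) ≤ K * (ε / (2 * K) * N) :=
    mul_le_mul_of_nonneg_right hcard2 (by positivity)
  have h7 : (K : ℝ) * (ε / (2 * K) * N) = ε / 2 * N := by field_simp
  have h8 : (K * (v - u) - 3) * (W / K) = (v - u) * W - 3 / K * W := by field_simp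
  have h9 : 3 / K * W ≤ ε / 2 * N := mul_le_mul hK3 hWN hW0 (by positivity)
  rw [mul_sub]
  linarith

open Classical in
/-- **weighted equidistribution** -/
lemma equi (ε : ℝ) (hε : 0 < ε) :
    ∃ (J : ℕ) (κ : ℝ), 0 < κ ∧ ∀ (N y : ℕ) (w : ℕ → ℝ) (α : ℝ), y ≤ N → (∀ n, 0 ≤ w n ∧ w n ≤ 1) →
      SmallSums J κ N y w α → ∀ u v : ℝ, 0 ≤ u → u ≤ v → v ≤ 1 →
      |∑ n ∈ Icc 1 y, w n * (if u ≤ Int.fract (α * n) ∧ Int.fract (α * n) < v then 1 else 0) -
        (v - u) * (∑ n ∈ Icc 1 y, w n)| ≤ ε * N := by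
  obtain ⟨J, κ, hκ, h⟩ := low_int (ε / 2) (by positivity)
  refine ⟨J, κ, hκ, fun N y w α hyN hw hS u v hu huv hv => ?_⟩
  have h1 := h N y w α hyN hw hS
  have a1 := h1 u v hu huv hv
  have a2 := h1 0 u le_rfl hu (huv.trans hv)
  have a3 := h1 v 1 (hu.trans huv) hv le_rfl
  have hN0 : (0 : ℝ) ≤ ε * N := by positivity
  have h2 : ∑ n ∈ Icc 1 y, w n * (if 0 ≤ Int.fract (α * n) ∧ Int.fract (α * n) < u then 1 else 0) +
      ∑ n ∈ Icc 1 y, w n * (if u ≤ Int.fract (α * n) ∧ Int.fract (α * n) < v then 1 else 0) +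
      ∑ n ∈ Icc 1 y, w n * (if v ≤ Int.fract (α * n) ∧ Int.fract (α * n) < 1 then 1 else 0) =
      ∑ n ∈ Icc 1 y, w n := by
    rw [← sum_add_distrib, ← sum_add_distrib]
    refine sum_congr rfl fun n _ => ?_
    rw [← mul_add, ← mul_add]
    set x := Int.fract (α * n) with hx
    have hx0 : 0 ≤ x := Int.fract_nonneg _
    have hx1 : x < 1 := Int.fract_lt_one _
    rcases lt_or_ge x u with h | h
    · rw [if_pos ⟨hx0, h⟩, if_neg (fun hh => absurd hh.1 (not_le.2 h)),
        if_neg (fun hh => absurd (huv.trans hh.1) (not_le.2 h))]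
      ring
    · rcases lt_or_ge x v with h' | h'
      · rw [if_neg (fun hh => absurd hh.2 (not_lt.2 h)), if_pos ⟨h, h'⟩, if_neg (fun hh => absurd hh.1 (not_le.2 h'))]
        ring
      · rw [if_neg (fun hh => absurd hh.2 (not_lt.2 h)), if_neg (fun hh => absurd hh.2 (not_lt.2 h')),
          if_pos ⟨h', hx1⟩]
        ring
  rw [abs_le]
  constructor <;> linarith

end Pool.Agent.V1213.CH
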