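import Pool.Agent.Y842.PG.Unif
import Pool.Agent.Y842.PH.Main
import Pool.Agent.V1213.CH.Weyl

/-!
Products of shifted values of the Liouville function: phases on the minor arcs, joint distribution of the sign
patterns with `α n` modulo `1`, and the reduction of all phases to arithmetic progressions.
-/

set_option autoImplicit false

open Finset Filter Topology

namespace Pool.Agent.V1213.CH

open Pool.Agent.Y842.PG
open Pool.Agent.Y304.U (sE ind ind_nonneg ind_le sE_nonneg)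
open Pool.Agent.Y958.U (LZ)
open Pool.Agent.Y842.EL (LZ_eps LZ_mono LZ_union LZ_empty)
open Pool.Agent.Y842.PH (LZ_thick)

/-- The Liouville function. -/
def lam (n : ℕ) : ℤ := (-1) ^ ArithmeticFunction.cardFactors n

/-- `∏_{h ∈ H} λ(n + h)` -/
def prodLam (H : Finset ℕ) (n : ℕ) : ℤ := ∏ h ∈ H, lam (n + h)

/-- `|α - A / q| ≥ R / N` for all fractions `A / q` with `q ≤ R`. -/
def Minor (R N : ℕ) (α : ℝ) : Prop :=
  ∀ q : ℕ, 1 ≤ q → q ≤ R → ∀ A : ℤ, (R : ℝ) ≤ |α - A / q| * N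

lemma Minor_mono {R R' N : ℕ} {α : ℝ} (h : R ≤ R') (hM : Minor R' N α) : Minor R N α := by
  intro q hq hqR A
  refine le_trans ?_ (hM q hq (hqR.trans h) A)
  exact_mod_cast h

lemma Minor_mul {R N J : ℕ} {α : ℝ} (i : ℕ) (h1 : 1 ≤ i) (h2 : i ≤ J) (hM : Minor (J * R) N α) :
    Minor R N (i * α) := by
  intro q hq hqR A
  have h3 : i * q ≤ J * R := Nat.mul_le_mul h2 hqR
  have h4 := hM (i * q) (Nat.mul_pos h1 hq) h3 A
  have hi : (1 : ℝ) ≤ i := by exact_mod_cast h1
  have hq0 : (0 : ℝ) < q := by exact_mod_cast hq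
  have h5 : |(i : ℝ) * α - A / q| = i * |α - A / (i * q : ℕ)| := by
    rw [← abs_of_nonneg (by linarith : (0 : ℝ) ≤ i), ← abs_mul, abs_of_nonneg (by linarith : (0 : ℝ) ≤ i)]
    congr 1
    push_cast
    field_simp
  rw [h5]
  have hJR : (R : ℝ) ≤ (J * R : ℕ) := by
    have : 1 ≤ J := h1.trans h2
    exact_mod_cast Nat.le_mul_of_pos_left R this
  have h6 : (0 : ℝ) ≤ |α - A / (i * q : ℕ)| * N := by positivity
  calc (R : ℝ) ≤ (J * R : ℕ) := hJR
    _ ≤ |α - A / (i * q : ℕ)| * N := h4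
    _ ≤ i * (|α - A / (i * q : ℕ)| * N) := by nlinarith
    _ = i * |α - A / (i * q : ℕ)| * N := by ring

lemma Minor_le {R N : ℕ} {α : ℝ} (hR : 1 ≤ R) (hM : Minor R N α) : (2 * R : ℝ) ≤ N := by
  have h1 := hM 1 le_rfl hR (round α)
  have h2 := abs_sub_round α
  have h3 : |α - (round α : ℤ) / ((1 : ℕ) : ℝ)| * N ≤ 1 / 2 * N := by
    apply mul_le_mul_of_nonneg_right _ (Nat.cast_nonneg N)
    rw [Nat.cast_one, div_one]
    exact h2
  linarith

/-- the functions of the library -/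
noncomputable def GG (k : ℕ) (H : Finset ℕ) (t : Fin k) (n : ℕ) : ℂ := if (t : ℕ) ∈ H then (lam n : ℂ) else 1

def hh (k : ℕ) (t : Fin k) : ℕ := t

lemma lam_norm (n : ℕ) : ‖(lam n : ℂ)‖ = 1 := by
  unfold lam
  push_cast
  rw [norm_pow, norm_neg, norm_one, one_pow]

lemma lam_pm (n : ℕ) : lam n = 1 ∨ lam n = -1 := by
  unfold lam
  exact neg_one_pow_eq_or ℤ _

lemma pr_GG (k : ℕ) (H : Finset ℕ) (hH : H ⊆ range k) (n : ℕ) : pr (GG k H) (hh k) 1 n = (prodLam H n : ℂ) := by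
  unfold pr GG hh prodLam
  rw [Fin.prod_univ_eq_prod_range (fun i => if i ∈ H then (lam (n + 1 * i) : ℂ) else 1) k, prod_ite_mem,
    inter_eq_right.2 hH]
  push_cast
  simp

lemma CF_GG (k : ℕ) (H : Finset ℕ) : CF (GG k H) := by
  constructor
  · intro t n
    unfold GG
    split_ifs
    · exact (lam_norm n).le
    · rw [norm_one]
  · intro p hp t
    by_cases ht : (t : ℕ) ∈ H
    · refine ⟨-1, by rw [norm_neg, norm_one], fun n hn => ?_⟩
      unfold GG
      rw [if_pos ht, if_pos ht]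
      have hn0 : n ≠ 0 := by
        rintro rfl
        exact hn (dvd_zero p)
      unfold lam
      rw [ArithmeticFunction.cardFactors_mul hp.ne_zero hn0, ArithmeticFunction.cardFactors_apply_prime hp]
      push_cast
      ring
    · refine ⟨1, norm_one, fun n _ => ?_⟩
      unfold GG
      rw [if_neg ht, if_neg ht, mul_one]

lemma prodLam_norm (H : Finset ℕ) (n : ℕ) : ‖(prodLam H n : ℂ)‖ = 1 := by
  unfold prodLam
  push_cast
  rw [norm_prod]
  exact prod_eq_one fun i _ => lam_norm _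

/-- exponential sum over `1, …, y` -/
noncomputable def Sm (H : Finset ℕ) (y : ℕ) (α : ℝ) : ℂ := ∑ n ∈ Icc 1 y, (prodLam H n : ℂ) * e (α * n)

lemma Sm_Cg (k : ℕ) (H : Finset ℕ) (hH : H ⊆ range k) (y : ℕ) (α : ℝ) :
    ‖Sm H y α‖ ≤ ‖Cg (GG k H) (hh k) y α‖ + 2 := by
  have h1 := sum_shift_le (fun n => (prodLam H n : ℂ) * e (α * n)) (fun n => by
    show ‖(prodLam H n : ℂ) * e (α * n)‖ ≤ 1
    rw [norm_mul, prodLam_norm, e_norm, one_mul]) y
  refine h1.trans (le_of_eq ?_)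
  congr 2
  unfold Cg
  refine sum_congr rfl fun n _ => ?_
  rw [pr_GG k H hH]
  rfl

lemma Cg_Sm (k : ℕ) (H : Finset ℕ) (hH : H ⊆ range k) (y : ℕ) (α : ℝ) :
    ‖Cg (GG k H) (hh k) y α‖ ≤ ‖Sm H y α‖ + 2 := by
  set F : ℕ → ℂ := fun n => (prodLam H n : ℂ) * e (α * n) with hF
  have hF1 : ∀ n, ‖F n‖ ≤ 1 := fun n => by
    show ‖(prodLam H n : ℂ) * e (α * n)‖ ≤ 1
    rw [norm_mul, prodLam_norm, e_norm, one_mul]
  have h0 : Cg (GG k H) (hh k) y α = ∑ n ∈ range y, F n := by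
    unfold Cg
    refine sum_congr rfl fun n _ => ?_
    rw [pr_GG k H hH]
    rfl
  have h1 : Sm H y α = ∑ n ∈ range y, F n + F y - F 0 := sum_shift F y
  rw [h0, show ∑ n ∈ range y, F n = Sm H y α - F y + F 0 by rw [h1]; ring]
  have h2 := norm_add_le (Sm H y α - F y) (F 0)
  have h3 := norm_sub_le (Sm H y α) (F y)
  have h4 := hF1 0
  have h5 := hF1 y
  linarith

lemma sE_eq (E : Set ℕ) [DecidablePred (· ∈ E)] (X : ℕ) : sE E X = ∑ N ∈ (Icc 1 X).filter (· ∈ E), (1 : ℝ) / N := by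
  unfold sE ind
  rw [sum_filter]
  refine sum_congr rfl fun n _ => ?_
  split_ifs <;> simp

/-- **minor arcs** -/
theorem phases (k : ℕ) (ε : ℝ) (hε : 0 < ε) (κ : ℝ) (hκ : 0 < κ) : ∃ R X₀ : ℕ, ∀ X : ℕ, X₀ ≤ X → ∃ T ⊆ Icc 1 X,
    ∑ N ∈ T, (1 : ℝ) / N ≤ ε * Real.log X ∧ ∀ N ∈ Icc 1 X, N ∉ T → ∀ α : ℝ, Minor R N α → ∀ y ≤ N,
      ∀ H ⊆ range k, ‖Sm H y α‖ ≤ κ * N := by
  classical
  set δ : ℝ := min 1 (κ / 2) with hδ
  have hδ0 : 0 < δ := lt_min one_pos (by positivity)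
  have hδ1 : δ ≤ 1 := min_le_left _ _
  have hδκ : δ ≤ κ / 2 := min_le_right _ _
  have h1 : ∀ H : Finset ℕ, ∃ R X₀ : ℕ, ∀ X : ℕ, X₀ ≤ X →
      sE {N : ℕ | ∃ α : ℝ, GdM R N α ∧ ∃ y ≤ N, δ * N < ‖Cg (GG (k + 1) H) (hh (k + 1)) y α‖} X ≤
        ε / 2 ^ (k + 1) * Real.log X := by
    intro H
    obtain ⟨R, X₀, h⟩ := minor_phases (r := k + 1) (by omega) (hh (k + 1)) δ hδ0 hδ1 (ε / 2 ^ (k + 1)) (by positivity)
    exact ⟨R, X₀, fun X hX => h X hX _ (CF_GG (k + 1) H)⟩
  choose R X₀ h2 using h1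
  set PP := (range (k + 1)).powerset with hPP
  refine ⟨∑ H ∈ PP, R H + ⌈4 / κ⌉₊, ∑ H ∈ PP, X₀ H, fun X hX => ?_⟩
  set E : Finset ℕ → Set ℕ := fun H =>
    {N : ℕ | ∃ α : ℝ, GdM (R H) N α ∧ ∃ y ≤ N, δ * N < ‖Cg (GG (k + 1) H) (hh (k + 1)) y α‖} with hE
  set U : Set ℕ := {N | ∃ H ∈ PP, N ∈ E H} with hU
  refine ⟨(Icc 1 X).filter (· ∈ U), filter_subset _ _, ?_, ?_⟩
  · rw [← sE_eq]
    refine (sE_cover PP U E (fun n hn => hn) X).trans ?_
    calc ∑ H ∈ PP, sE (E H) X ≤ ∑ H ∈ PP, ε / 2 ^ (k + 1) * Real.log X := by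
          refine sum_le_sum fun H hH => h2 H X ?_
          exact (single_le_sum (f := fun H => X₀ H) (fun _ _ => Nat.zero_le _) hH).trans hX
      _ = ε * Real.log X := by
          rw [sum_const, hPP, card_powerset, card_range, nsmul_eq_mul]
          push_cast
          field_simp
  · intro N hN hNT α hM y hy H hH
    have hH1 : H ⊆ range (k + 1) := hH.trans (range_subset_range.2 (by omega))
    have hHP : H ∈ PP := mem_powerset.2 hH1
    have hNU : N ∉ U := fun h => hNT (mem_filter.2 ⟨hN, h⟩)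
    have hκ4 : 1 ≤ ⌈4 / κ⌉₊ := Nat.one_le_ceil_iff.2 (by positivity)
    have hNl := Minor_le (by omega) hM
    have hN4 : 4 / κ ≤ N := by
      have h3 : (4 / κ : ℝ) ≤ ((∑ H ∈ PP, R H + ⌈4 / κ⌉₊ : ℕ) : ℝ) := by
        push_cast
        have := Nat.le_ceil (4 / κ)
        have : (0 : ℝ) ≤ ∑ H ∈ PP, (R H : ℝ) := by positivity
        linarith
      have h4 : (0 : ℝ) ≤ ((∑ H ∈ PP, R H + ⌈4 / κ⌉₊ : ℕ) : ℝ) := Nat.cast_nonneg _
      linarith
    have h3 : ‖Cg (GG (k + 1) H) (hh (k + 1)) y α‖ ≤ δ * N := by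
      by_contra h
      push Not at h
      refine hNU ⟨H, hHP, α, ?_, y, hy, h⟩
      refine Minor_mono ?_ hM
      exact (single_le_sum (f := fun H => R H) (fun _ _ => Nat.zero_le _) hHP).trans (Nat.le_add_right _ _)
    have h4 := Sm_Cg (k + 1) H hH1 y α
    have h5 : 2 ≤ κ / 2 * N := by
      rw [div_le_iff₀ hκ] at hN4
      linarith
    have h6 : δ * N ≤ κ / 2 * N := mul_le_mul_of_nonneg_right hδκ (Nat.cast_nonneg N)
    linarith

/-- the pattern `s` of length `k` occurs at `n` -/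
def Pat (k : ℕ) (s : ℕ → ℤ) (n : ℕ) : Prop := ∀ i < k, lam (n + i) = s i

lemma pat_ind (k : ℕ) (s : ℕ → ℤ) (hs : ∀ i < k, s i = 1 ∨ s i = -1) (n : ℕ) [Decidable (Pat k s n)] :
    (if Pat k s n then (1 : ℝ) else 0) =
      (1 / 2 ^ k) * ∑ H ∈ (range k).powerset, (∏ i ∈ H, (s i : ℝ)) * (prodLam H n : ℝ) := by
  have h1 : ∑ H ∈ (range k).powerset, (∏ i ∈ H, (s i : ℝ)) * (prodLam H n : ℝ) =
      ∏ i ∈ range k, (1 + (s i : ℝ) * (lam (n + i) : ℝ)) := by
    rw [prod_one_add]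
    refine sum_congr rfl fun H _ => ?_
    unfold prodLam
    push_cast
    rw [prod_mul_distrib]
  rw [h1]
  by_cases h : Pat k s n
  · rw [if_pos h]
    have h2 : ∏ i ∈ range k, (1 + (s i : ℝ) * (lam (n + i) : ℝ)) = ∏ i ∈ range k, (2 : ℝ) := by
      refine prod_congr rfl fun i hi => ?_
      rw [mem_range] at hi
      rw [h i hi]
      rcases hs i hi with h3 | h3
      · rw [h3]; norm_num
      · rw [h3]; norm_num
    rw [h2, prod_const, card_range]
    field_simp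
  · rw [if_neg h]
    unfold Pat at h
    push Not at h
    obtain ⟨i, hi, hne⟩ := h
    have h2 : ∏ i ∈ range k, (1 + (s i : ℝ) * (lam (n + i) : ℝ)) = 0 := by
      apply prod_eq_zero (mem_range.2 hi)
      rcases hs i hi with h3 | h3 <;> rcases lam_pm (n + i) with h4 | h4
      · exact absurd (h4.trans h3.symm) hne
      · rw [h3, h4]; norm_num
      · rw [h3, h4]; norm_num
      · exact absurd (h4.trans h3.symm) hne
    rw [h2, mul_zero]

open Classical in
/-- **minor arcs, phases and patterns** -/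
theorem main_unif (k : ℕ) (ε : ℝ) (hε : 0 < ε) : ∃ R X₀ : ℕ, ∀ X : ℕ, X₀ ≤ X → ∃ T ⊆ Icc 1 X,
    ∑ N ∈ T, (1 : ℝ) / N ≤ ε * Real.log X ∧ ∀ N ∈ Icc 1 X, N ∉ T → ∀ α : ℝ, Minor R N α → ∀ y ≤ N,
      (∀ H ⊆ range k, ‖Sm H y α‖ ≤ ε * N) ∧
      ∀ (s : ℕ → ℤ) (u v : ℝ), 0 ≤ u → u ≤ v → v ≤ 1 →
        |(((Icc 1 y).filter fun n => Pat k s n ∧ u ≤ Int.fract (α * n) ∧ Int.fract (α * n) < v).card : ℝ) -
          (v - u) * ((Icc 1 y).filter fun n => Pat k s n).card| ≤ ε * N := by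
  obtain ⟨J, κ, hκ, hJ⟩ := equi ε hε
  obtain ⟨R, X₀, h1⟩ := phases k ε hε (min ε κ) (lt_min hε hκ)
  refine ⟨(J + 1) * R, X₀, fun X hX => ?_⟩
  obtain ⟨T, hT, hT1, h2⟩ := h1 X hX
  refine ⟨T, hT, hT1, fun N hN hNT α hM y hy => ⟨fun H hH => ?_, fun s u v hu huv hv => ?_⟩⟩
  · have h3 := h2 N hN hNT α (Minor_mono (Nat.le_mul_of_pos_left R (by omega)) hM) y hy H hH
    exact h3.trans (mul_le_mul_of_nonneg_right (min_le_left _ _) (Nat.cast_nonneg N))
  · by_cases hs : ∀ i < k, s i = 1 ∨ s i = -1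
    · set w : ℕ → ℝ := fun n => if Pat k s n then 1 else 0 with hw
      have hw01 : ∀ n, 0 ≤ w n ∧ w n ≤ 1 := by
        intro n
        rw [hw]
        show 0 ≤ (if Pat k s n then (1 : ℝ) else 0) ∧ (if Pat k s n then (1 : ℝ) else 0) ≤ 1
        split_ifs <;> norm_num
      have hS : SmallSums J κ N y w α := by
        intro i hi1 hi2
        have h3 := h2 N hN hNT (i * α) (Minor_mul i hi1 (hi2.trans (by omega)) hM) y hy
        have h4 : ∑ n ∈ Icc 1 y, (w n : ℂ) * e (i * α * n) =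
            (1 / 2 ^ k) * ∑ H ∈ (range k).powerset, (∏ i ∈ H, (s i : ℂ)) * Sm H y (i * α) := by
          have h5 : ∀ n ∈ Icc 1 y, (w n : ℂ) * e (i * α * n) =
              (1 / 2 ^ k) * ∑ H ∈ (range k).powerset, (∏ i ∈ H, (s i : ℂ)) * ((prodLam H n : ℂ) * e (i * α * n)) := by
            intro n _
            have h6 := pat_ind k s hs n
            rw [hw]
            show ((if Pat k s n then (1 : ℝ) else 0 : ℝ) : ℂ) * e (i * α * n) = _
            rw [h6]
            push_cast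
            rw [mul_assoc, sum_mul]
            congr 1
            refine sum_congr rfl fun H _ => ?_
            ring
          rw [sum_congr rfl h5, ← mul_sum, sum_comm]
          congr 1
          refine sum_congr rfl fun H _ => ?_
          rw [← mul_sum]
          rfl
        rw [h4, norm_mul]
        have h5 : ‖∑ H ∈ (range k).powerset, (∏ i ∈ H, (s i : ℂ)) * Sm H y (i * α)‖ ≤ 2 ^ k * (κ * N) := by
          refine (norm_sum_le _ _).trans ?_
          calc ∑ H ∈ (range k).powerset, ‖(∏ i ∈ H, (s i : ℂ)) * Sm H y (i * α)‖ ≤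
              ∑ H ∈ (range k).powerset, κ * N := by
                refine sum_le_sum fun H hH => ?_
                rw [mem_powerset] at hH
                rw [norm_mul, norm_prod]
                have h6 : ∏ i ∈ H, ‖(s i : ℂ)‖ = 1 := by
                  refine prod_eq_one fun i hi => ?_
                  rcases hs i (mem_range.1 (hH hi)) with h7 | h7 <;> rw [h7] <;> simp
                rw [h6, one_mul]
                exact (h3 H hH).trans (mul_le_mul_of_nonneg_right (min_le_right _ _) (Nat.cast_nonneg N))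
            _ = 2 ^ k * (κ * N) := by
                rw [sum_const, card_powerset, card_range, nsmul_eq_mul]
                push_cast
                ring
        have h6 : ‖(1 / 2 ^ k : ℂ)‖ = 1 / 2 ^ k := by
          rw [norm_div, norm_one, norm_pow, Complex.norm_ofNat]
        rw [h6]
        calc 1 / 2 ^ k * ‖∑ H ∈ (range k).powerset, (∏ i ∈ H, (s i : ℂ)) * Sm H y (i * α)‖ ≤
            1 / 2 ^ k * (2 ^ k * (κ * N)) := mul_le_mul_of_nonneg_left h5 (by positivity)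
          _ = κ * N := by field_simp
      have h3 := hJ N y w α hy hw01 hS u v hu huv hv
      have e1 : (((Icc 1 y).filter fun n => Pat k s n ∧ u ≤ Int.fract (α * n) ∧ Int.fract (α * n) < v).card : ℝ) =
          ∑ n ∈ Icc 1 y, w n * (if u ≤ Int.fract (α * n) ∧ Int.fract (α * n) < v then 1 else 0) := by
        rw [card_filter]
        push_cast
        refine sum_congr rfl fun n _ => ?_
        rw [hw]
        show _ = (if Pat k s n then (1 : ℝ) else 0) * _
        by_cases ha : Pat k s n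
        · simp only [ha, true_and, if_true, one_mul]
        · simp only [ha, false_and, if_false, zero_mul]
      have e2 : (((Icc 1 y).filter fun n => Pat k s n).card : ℝ) = ∑ n ∈ Icc 1 y, w n := by
        rw [card_filter]
        push_cast
        rfl
      rw [e1, e2]
      exact h3
    · push Not at hs
      obtain ⟨i, hi, h3, h4⟩ := hs
      have h5 : ∀ n, ¬ Pat k s n := by
        intro n hn
        rcases lam_pm (n + i) with h6 | h6
        · exact h3 ((hn i hi).symm.trans h6)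
        · exact h4 ((hn i hi).symm.trans h6)
      have e1 : ((Icc 1 y).filter fun n => Pat k s n ∧ u ≤ Int.fract (α * n) ∧ Int.fract (α * n) < v) = ∅ :=
        filter_eq_empty_iff.2 fun n _ hn => h5 n hn.1
      have e2 : ((Icc 1 y).filter fun n => Pat k s n) = ∅ := filter_eq_empty_iff.2 fun n _ hn => h5 n hn
      rw [e1, e2]
      simp
      positivity

end Pool.Agent.V1213.CH
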