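import Pool.Agent.V1213.CH.Lin

/-!
Products of powers of shifted values of the Moebius function: minor arcs and patterns of values.
-/

set_option autoImplicit false

open Finset Filter Topology

namespace Pool.Agent.V1213.CH

open Pool.Agent.Y842.PG
open Pool.Agent.Y304.U (sE ind ind_nonneg ind_le sE_nonneg)
open Pool.Agent.Y958.U (LZ)
open Pool.Agent.Y842.EL (LZ_eps LZ_mono LZ_union LZ_empty)

/-- the Moebius function -/
def mu (n : ℕ) : ℤ := ArithmeticFunction.moebius n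

lemma mu_cases (n : ℕ) : mu n = 0 ∨ mu n = 1 ∨ mu n = -1 := by
  unfold mu
  by_cases h : ArithmeticFunction.moebius n = 0
  · exact Or.inl h
  · exact Or.inr (ArithmeticFunction.moebius_ne_zero_iff_eq_or.1 h)

lemma mu_pow_norm (n c : ℕ) : ‖((mu n : ℂ)) ^ c‖ ≤ 1 := by
  rw [norm_pow]
  apply pow_le_one₀ (norm_nonneg _)
  rcases mu_cases n with h | h | h <;> rw [h] <;> simp

lemma mu_DM (c : ℕ) : DM (fun n => ((mu n : ℂ)) ^ c) := by
  refine ⟨fun n => mu_pow_norm n c, fun m n h => ?_⟩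
  show ((mu (m * n) : ℂ)) ^ c = (mu m : ℂ) ^ c * (mu n : ℂ) ^ c
  unfold mu
  rw [ArithmeticFunction.isMultiplicative_moebius.map_mul_of_coprime h]
  push_cast
  rw [mul_pow]

section

variable {r : ℕ}

/-- `∏ μ(n + α_i) ^ c_i` -/
def MP (α : Fin r → ℕ) (c : Fin r → ℕ) (n : ℕ) : ℤ := ∏ i, mu (n + α i) ^ c i

/-- the exponential sum -/
noncomputable def SM (α c : Fin r → ℕ) (y : ℕ) (t : ℝ) : ℂ := ∑ n ∈ Icc 1 y, (MP α c n : ℂ) * e (t * n)

lemma MP_Pd (α c : Fin r → ℕ) (n : ℕ) : (MP α c n : ℂ) = Pd (fun i n => ((mu n : ℂ)) ^ c i) α n := by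
  unfold MP Pd
  push_cast
  rfl

lemma SM_Sg (α c : Fin r → ℕ) (y : ℕ) (t : ℝ) : SM α c y t = Sg (fun i n => ((mu n : ℂ)) ^ c i) α y t := by
  unfold SM Sg
  refine sum_congr rfl fun n _ => ?_
  rw [MP_Pd]

lemma biU_le {ι : Type} (s : Finset ι) (T : ι → Finset ℕ) :
    ∑ N ∈ s.biUnion T, (1 : ℝ) / N ≤ ∑ c ∈ s, ∑ N ∈ T c, (1 : ℝ) / N := by
  classical
  induction s using Finset.induction_on with
  | empty => simp
  | insert a s ha ih =>
    rw [biUnion_insert, sum_insert ha]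
    have a2 : ∑ N ∈ T a ∪ s.biUnion T, (1 : ℝ) / N ≤ ∑ N ∈ T a, (1 : ℝ) / N + ∑ N ∈ s.biUnion T, (1 : ℝ) / N := by
      rw [← sum_union_inter]
      exact le_add_of_nonneg_right (sum_nonneg fun N _ => by positivity)
    linarith

theorem mob_minor (hr : 1 ≤ r) (α : Fin r → ℕ) (ε : ℝ) (hε : 0 < ε) (κ : ℝ) (hκ : 0 < κ) :
    ∃ R X₀ : ℕ, ∀ X : ℕ, X₀ ≤ X → ∃ T ⊆ Icc 1 X,
      ∑ N ∈ T, (1 : ℝ) / N ≤ ε * Real.log X ∧ ∀ N ∈ Icc 1 X, N ∉ T → ∀ t : ℝ, Minor R N t → ∀ y ≤ N,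
        ∀ c : Fin r → Fin 3, ‖SM α (fun i => c i) y t‖ ≤ κ * N := by
  classical
  have h1 : ∀ c : Fin r → Fin 3, ∃ R X₀ : ℕ, ∀ X : ℕ, X₀ ≤ X → ∃ T ⊆ Icc 1 X,
      ∑ N ∈ T, (1 : ℝ) / N ≤ ε / 3 ^ r * Real.log X ∧ ∀ N ∈ Icc 1 X, N ∉ T → ∀ t : ℝ, Minor R N t → ∀ y ≤ N,
        ‖SM α (fun i => c i) y t‖ ≤ κ * N := by
    intro c
    obtain ⟨R, X₀, h⟩ := minor_ex hr α (ε / 3 ^ r) (by positivity) κ hκ
    refine ⟨R, X₀, fun X hX => ?_⟩
    obtain ⟨T, hT, hT1, h2⟩ := h X hX (fun i n => ((mu n : ℂ)) ^ (c i : ℕ)) (fun i => mu_DM (c i))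
    refine ⟨T, hT, hT1, fun N hN hNT t ht y hy => ?_⟩
    rw [SM_Sg]
    exact h2 N hN hNT t ht y hy
  choose R X₀ h2 using h1
  refine ⟨∑ c, R c, ∑ c, X₀ c, fun X hX => ?_⟩
  have h3 : ∀ c, X₀ c ≤ X := fun c =>
    (single_le_sum (f := fun c => X₀ c) (fun _ _ => Nat.zero_le _) (mem_univ c)).trans hX
  choose T hT hT1 h4 using fun c => h2 c X (h3 c)
  refine ⟨univ.biUnion T, biUnion_subset.2 fun c _ => hT c, ?_, ?_⟩
  · refine (biU_le univ T).trans ?_
    calc ∑ c : Fin r → Fin 3, ∑ N ∈ T c, (1 : ℝ) / N ≤ ∑ _c : Fin r → Fin 3, ε / 3 ^ r * Real.log X :=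
          sum_le_sum fun c _ => hT1 c
      _ = ε * Real.log X := by
          rw [sum_const, card_univ, nsmul_eq_mul]
          simp only [Fintype.card_fun, Fintype.card_fin]
          push_cast
          field_simp
  · intro N hN hNT t ht y hy c
    have h5 : N ∉ T c := fun h => hNT (mem_biUnion.2 ⟨c, mem_univ c, h⟩)
    exact h4 c N hN h5 t (Minor_mono (single_le_sum (f := fun c => R c) (fun _ _ => Nat.zero_le _) (mem_univ c)) ht)
      y hy

/-- the pattern of values -/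
def PatM (α : Fin r → ℕ) (s : Fin r → ℤ) (n : ℕ) : Prop := ∀ i, mu (n + α i) = s i

/-- coefficients -/
noncomputable def cf (s : ℤ) (c : Fin 3) : ℝ :=
  if s = 0 then ![1, 0, -1] c else if s = 1 then ![0, 1 / 2, 1 / 2] c else if s = -1 then ![0, -1 / 2, 1 / 2] c else 0

lemma cf_sum (s : ℤ) (m : ℕ) : ∑ c : Fin 3, cf s c * (mu m : ℝ) ^ (c : ℕ) = if mu m = s then 1 else 0 := by
  unfold cf
  rw [Fin.sum_univ_three]
  by_cases h0 : s = 0
  · subst h0
    rcases mu_cases m with h | h | h <;> simp [h]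
  · by_cases h1 : s = 1
    · subst h1
      rcases mu_cases m with h | h | h <;> simp [h] <;> norm_num
    · by_cases h2 : s = -1
      · subst h2
        rcases mu_cases m with h | h | h <;> simp [h] <;> norm_num
      · simp only [h0, h1, h2, if_false, zero_mul, add_zero]
        rw [if_neg]
        rcases mu_cases m with h | h | h <;> rw [h]
        · exact fun h' => h0 h'.symm
        · exact fun h' => h1 h'.symm
        · exact fun h' => h2 h'.symm

lemma cf_abs (s : ℤ) (c : Fin 3) : |cf s c| ≤ 1 := by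
  unfold cf
  fin_cases c <;> simp <;> split_ifs <;> norm_num [abs_le]

open Classical in
lemma patM_ind (α : Fin r → ℕ) (s : Fin r → ℤ) (n : ℕ) :
    (if PatM α s n then (1 : ℝ) else 0) =
      ∑ c : Fin r → Fin 3, (∏ i, cf (s i) (c i)) * (MP α (fun i => c i) n : ℝ) := by
  have h1 : ∏ i, (∑ c : Fin 3, cf (s i) c * (mu (n + α i) : ℝ) ^ (c : ℕ)) =
      ∑ c : Fin r → Fin 3, (∏ i, cf (s i) (c i)) * (MP α (fun i => c i) n : ℝ) := by
    rw [prod_univ_sum, Fintype.piFinset_univ]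
    refine sum_congr rfl fun c _ => ?_
    rw [prod_mul_distrib]
    unfold MP
    push_cast
    rfl
  rw [← h1]
  simp_rw [cf_sum]
  by_cases h : PatM α s n
  · rw [if_pos h]
    exact (prod_eq_one fun i _ => if_pos (h i)).symm
  · rw [if_neg h]
    unfold PatM at h
    push Not at h
    obtain ⟨i, hi⟩ := h
    exact (prod_eq_zero (mem_univ i) (if_neg hi)).symm

open Classical in
theorem mob_unif (hr : 1 ≤ r) (α : Fin r → ℕ) (ε : ℝ) (hε : 0 < ε) :
    ∃ R X₀ : ℕ, ∀ X : ℕ, X₀ ≤ X → ∃ T ⊆ Icc 1 X,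
      ∑ N ∈ T, (1 : ℝ) / N ≤ ε * Real.log X ∧ ∀ N ∈ Icc 1 X, N ∉ T → ∀ t : ℝ, Minor R N t → ∀ y ≤ N,
        (∀ c : Fin r → ℕ, (∀ i, c i ≤ 2) → ‖SM α c y t‖ ≤ ε * N) ∧
        ∀ (s : Fin r → ℤ) (u v : ℝ), 0 ≤ u → u ≤ v → v ≤ 1 →
          |(((Icc 1 y).filter fun n : ℕ => PatM α s n ∧ u ≤ Int.fract (t * n) ∧ Int.fract (t * n) < v).card : ℝ) -
            (v - u) * ((Icc 1 y).filter fun n => PatM α s n).card| ≤ ε * N := by
  obtain ⟨J, κ, hκ, hJ⟩ := equi ε hε
  obtain ⟨R, X₀, h1⟩ := mob_minor hr α ε hε (min ε (κ / 3 ^ r)) (lt_min hε (by positivity))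
  refine ⟨(J + 1) * R, X₀, fun X hX => ?_⟩
  obtain ⟨T, hT, hT1, h2⟩ := h1 X hX
  refine ⟨T, hT, hT1, fun N hN hNT t hM y hy => ⟨fun c hc => ?_, fun s u v hu huv hv => ?_⟩⟩
  · have h3 := h2 N hN hNT t (Minor_mono (Nat.le_mul_of_pos_left R (by omega)) hM) y hy
      (fun i => ⟨c i, by have := hc i; omega⟩)
    exact h3.trans (mul_le_mul_of_nonneg_right (min_le_left _ _) (Nat.cast_nonneg N))
  · set w : ℕ → ℝ := fun n => if PatM α s n then 1 else 0 with hw
    have hw01 : ∀ n, 0 ≤ w n ∧ w n ≤ 1 := by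
      intro n
      show 0 ≤ (if PatM α s n then (1 : ℝ) else 0) ∧ (if PatM α s n then (1 : ℝ) else 0) ≤ 1
      split_ifs <;> norm_num
    have hS : SmallSums J κ N y w t := by
      intro i hi1 hi2
      have h3 := h2 N hN hNT (i * t) (Minor_mul i hi1 (hi2.trans (by omega)) hM) y hy
      have h4 : ∑ n ∈ Icc 1 y, (w n : ℂ) * e (i * t * n) =
          ∑ c : Fin r → Fin 3, (∏ i, (cf (s i) (c i) : ℂ)) * SM α (fun i => c i) y (i * t) := by
        have h5 : ∀ n ∈ Icc 1 y, (w n : ℂ) * e (i * t * n) =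
            ∑ c : Fin r → Fin 3, (∏ i, (cf (s i) (c i) : ℂ)) * ((MP α (fun i => c i) n : ℂ) * e (i * t * n)) := by
          intro n _
          have h6 := patM_ind α s n
          show ((if PatM α s n then (1 : ℝ) else 0 : ℝ) : ℂ) * e (i * t * n) = _
          rw [h6]
          push_cast
          rw [sum_mul]
          refine sum_congr rfl fun c _ => ?_
          ring
        rw [sum_congr rfl h5, sum_comm]
        refine sum_congr rfl fun c _ => ?_
        rw [← mul_sum]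
        rfl
      rw [h4]
      refine (norm_sum_le _ _).trans ?_
      calc ∑ c : Fin r → Fin 3, ‖(∏ i, (cf (s i) (c i) : ℂ)) * SM α (fun i => c i) y (i * t)‖ ≤
          ∑ _c : Fin r → Fin 3, κ / 3 ^ r * N := by
            refine sum_le_sum fun c _ => ?_
            rw [norm_mul, norm_prod]
            have h6 : ∏ i, ‖(cf (s i) (c i) : ℂ)‖ ≤ 1 := by
              refine prod_le_one (fun _ _ => norm_nonneg _) fun i _ => ?_
              rw [Complex.norm_real, Real.norm_eq_abs]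
              exact cf_abs _ _
            have h7 := (h3 c).trans (mul_le_mul_of_nonneg_right (min_le_right _ _) (Nat.cast_nonneg N))
            calc _ ≤ 1 * (κ / 3 ^ r * N) := mul_le_mul h6 h7 (norm_nonneg _) zero_le_one
              _ = _ := one_mul _
        _ = κ * N := by
            rw [sum_const, card_univ, nsmul_eq_mul]
            simp only [Fintype.card_fun, Fintype.card_fin]
            push_cast
            field_simp
    have h3 := hJ N y w t hy hw01 hS u v hu huv hv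
    have e1 : (((Icc 1 y).filter fun n : ℕ => PatM α s n ∧ u ≤ Int.fract (t * n) ∧ Int.fract (t * n) < v).card : ℝ) =
        ∑ n ∈ Icc 1 y, w n * (if u ≤ Int.fract (t * n) ∧ Int.fract (t * n) < v then 1 else 0) := by
      rw [card_filter]
      push_cast
      refine sum_congr rfl fun n _ => ?_
      show _ = (if PatM α s n then (1 : ℝ) else 0) * _
      by_cases ha : PatM α s n
      · simp only [ha, true_and, if_true, one_mul]
      · simp only [ha, false_and, if_false, zero_mul]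
    have e2 : (((Icc 1 y).filter fun n => PatM α s n).card : ℝ) = ∑ n ∈ Icc 1 y, w n := by
      rw [card_filter]
      push_cast
      rfl
    rw [e1, e2]
    exact h3

/-- **from progressions to all phases and back** -/
theorem mob_equiv (hr : 1 ≤ r) (α c : Fin r → ℕ) :
    (∀ q a : ℕ, 1 ≤ q → ∀ ε : ℝ, 0 < ε →
      LZ {N : ℕ | ε * N < |∑ n ∈ (Icc 1 N).filter (fun n => n % q = a), (MP α c n : ℝ)|}) ↔
    ∀ ε : ℝ, 0 < ε → LZ {N : ℕ | ∃ t : ℝ, ∃ y ≤ N, ε * N < ‖SM α c y t‖} := by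
  set G : Fin r → ℕ → ℂ := fun i n => ((mu n : ℂ)) ^ c i with hG
  have hDM : ∀ i, DM (G i) := fun i => mu_DM (c i)
  have h0 := class_equiv hr α (fun g => g = G) (by
      rintro g rfl t
      exact hDM t)
  have conv : ∀ E : (Fin r → ℕ → ℂ) → Set ℕ, UN (fun g => g = G) E ↔ LZ (E G) := by
    intro E
    rw [LZ_eps]
    constructor
    · intro h η hη
      obtain ⟨X₀, h1⟩ := h η hη
      exact ⟨X₀, fun X hX => h1 X hX G rfl⟩
    · intro h η hη
      obtain ⟨X₀, h1⟩ := h η hη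
      refine ⟨X₀, fun X hX g hg => ?_⟩
      subst hg
      exact h1 X hX
  have e1 : ∀ (q a N : ℕ), ‖∑ n ∈ (Icc 1 N).filter (fun n => n % q = a), Pd G α n‖ =
      |∑ n ∈ (Icc 1 N).filter (fun n => n % q = a), (MP α c n : ℝ)| := by
    intro q a N
    rw [← Real.norm_eq_abs, ← Complex.norm_real]
    congr 1
    push_cast
    refine sum_congr rfl fun n _ => ?_
    rw [MP_Pd]
  simp only [conv] at h0
  simp only [e1] at h0
  rw [h0]
  refine forall_congr' fun ε => forall_congr' fun _ => ?_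
  simp only [SM_Sg]
  rfl

end

end Pool.Agent.V1213.CH
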