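import Pool.Agent.V1213.CH.Equiv

/-!
Products of shifted values of arbitrary multiplicative functions with values in the unit disc: minor arcs and
restriction to Bohr sets, uniformly in the functions.
-/

set_option autoImplicit false

open Finset Filter Topology

namespace Pool.Agent.V1213.CH

open Pool.Agent.Y842.PG

/-- the product of the shifted functions -/
noncomputable def Pd {r : ℕ} (g : Fin r → ℕ → ℂ) (hs : Fin r → ℕ) (n : ℕ) : ℂ := ∏ t, g t (n + hs t)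

/-- the class of functions -/
def DM (g : ℕ → ℂ) : Prop := (∀ n, ‖g n‖ ≤ 1) ∧ ∀ m n : ℕ, Nat.Coprime m n → g (m * n) = g m * g n

lemma DM_conj {g : ℕ → ℂ} (h : DM g) : DM (fun n => (starRingEnd ℂ) (g n)) := by
  refine ⟨fun n => ?_, fun m n hmn => ?_⟩
  · rw [Complex.norm_conj]
    exact h.1 n
  · show (starRingEnd ℂ) (g (m * n)) = (starRingEnd ℂ) (g m) * (starRingEnd ℂ) (g n)
    rw [h.2 m n hmn, map_mul]

lemma DM_one : DM (fun _ => 1) := ⟨fun _ => by rw [norm_one], fun _ _ _ => by rw [mul_one]⟩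

lemma Pd_le {r : ℕ} {g : Fin r → ℕ → ℂ} (hs : Fin r → ℕ) (hg : ∀ t, DM (g t)) (n : ℕ) : ‖Pd g hs n‖ ≤ 1 := by
  unfold Pd
  rw [norm_prod]
  exact prod_le_one (fun _ _ => norm_nonneg _) fun t _ => (hg t).1 _

/-- **minor arcs**, exceptional set depending on the functions only -/
theorem minor_ex {r : ℕ} (hr : 1 ≤ r) (hs : Fin r → ℕ) (ε : ℝ) (hε : 0 < ε) (κ : ℝ) (hκ : 0 < κ) :
    ∃ R X₀ : ℕ, ∀ X : ℕ, X₀ ≤ X → ∀ g : Fin r → ℕ → ℂ, (∀ t, DM (g t)) → ∃ T ⊆ Icc 1 X,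
      ∑ N ∈ T, (1 : ℝ) / N ≤ ε * Real.log X ∧ ∀ N ∈ Icc 1 X, N ∉ T → ∀ α : ℝ, Minor R N α → ∀ y ≤ N,
        ‖∑ n ∈ Icc 1 y, Pd g hs n * e (α * n)‖ ≤ κ * N := by
  classical
  obtain ⟨R, X₀, h⟩ := minor_all hr hs (ε * κ) (by positivity)
  refine ⟨R, X₀, fun X hX g hg => ?_⟩
  set Q : ℕ → Prop := fun N => ∃ (α : ℝ) (y : ℕ), Minor R N α ∧ y ≤ N ∧
    κ * N < ‖∑ n ∈ Icc 1 y, Pd g hs n * e (α * n)‖ with hQ
  refine ⟨(Icc 1 X).filter Q, filter_subset _ _, ?_, ?_⟩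
  · have hch : ∀ N : ℕ, ∃ (α : ℝ) (y : ℕ), y ≤ N ∧ (Q N → Minor R N α ∧
        κ * N < ‖∑ n ∈ Icc 1 y, Pd g hs n * e (α * n)‖) := by
      intro N
      by_cases hN : Q N
      · obtain ⟨α, y, h1, h2, h3⟩ := hN
        exact ⟨α, y, h2, fun _ => ⟨h1, h3⟩⟩
      · exact ⟨0, 0, Nat.zero_le _, fun h => absurd h hN⟩
    choose α y hy hαy using hch
    have h1 := h X hX g (fun t n => (hg t).1 n) (fun t m n hmn => (hg t).2 m n hmn) α y hy
      ((Icc 1 X).filter Q) (filter_subset _ _) (fun N hN => (hαy N (mem_filter.1 hN).2).1)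
    have h2 : ∑ N ∈ (Icc 1 X).filter Q, κ * ((1 : ℝ) / N) ≤ ε * κ * Real.log X := by
      refine le_trans (sum_le_sum fun N hN => ?_) h1
      have hN' := mem_filter.1 hN
      have hN1 := (mem_Icc.1 hN'.1).1
      have hN0 : (0 : ℝ) < N := by exact_mod_cast hN1
      have h3 := (hαy N hN'.2).2
      have e1 : κ * ((1 : ℝ) / N) = κ * N / (N : ℝ) ^ 2 := by field_simp
      rw [e1]
      exact div_le_div_of_nonneg_right h3.le (by positivity)
    rw [← mul_sum] at h2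
    have h3 : κ * ∑ N ∈ (Icc 1 X).filter Q, (1 : ℝ) / N ≤ κ * (ε * Real.log X) := by linarith
    exact le_of_mul_le_mul_left h3 hκ
  · intro N hN hNT α hM y hy
    by_contra hcon
    push Not at hcon
    exact hNT (mem_filter.2 ⟨hN, α, y, hM, hy, hcon⟩)

open Classical in
/-- **minor arcs and Bohr sets**, uniformly in the functions -/
theorem mult_unif {r : ℕ} (hr : 1 ≤ r) (hs : Fin r → ℕ) (ε : ℝ) (hε : 0 < ε) :
    ∃ R X₀ : ℕ, ∀ X : ℕ, X₀ ≤ X → ∀ g : Fin r → ℕ → ℂ, (∀ t, DM (g t)) → ∃ T ⊆ Icc 1 X,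
      ∑ N ∈ T, (1 : ℝ) / N ≤ ε * Real.log X ∧ ∀ N ∈ Icc 1 X, N ∉ T → ∀ α : ℝ, Minor R N α → ∀ y ≤ N,
        ‖∑ n ∈ Icc 1 y, Pd g hs n * e (α * n)‖ ≤ ε * N ∧
        ∀ u v : ℝ, 0 ≤ u → u ≤ v → v ≤ 1 →
          ‖∑ n ∈ (Icc 1 y).filter (fun n : ℕ => u ≤ Int.fract (α * n) ∧ Int.fract (α * n) < v), Pd g hs n -
            (v - u) * ∑ n ∈ Icc 1 y, Pd g hs n‖ ≤ ε * N := by
  obtain ⟨J, κ, hκ, hJ⟩ := equi (ε / 6) (by positivity)
  obtain ⟨R, X₀, h1⟩ := minor_ex hr hs (ε / 3) (by positivity) (min ε κ) (lt_min hε hκ)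
  refine ⟨(J + 1) * R, X₀, fun X hX g hg => ?_⟩
  obtain ⟨T₁, hT₁, hs₁, h₁⟩ := h1 X hX g hg
  obtain ⟨T₂, hT₂, hs₂, h₂⟩ := h1 X hX (fun t n => (starRingEnd ℂ) (g t n)) (fun t => DM_conj (hg t))
  obtain ⟨T₃, hT₃, hs₃, h₃⟩ := h1 X hX (fun _ _ => 1) (fun _ => DM_one)
  refine ⟨T₁ ∪ T₂ ∪ T₃, union_subset (union_subset hT₁ hT₂) hT₃, ?_, ?_⟩
  · have hpos : ∀ N : ℕ, (0 : ℝ) ≤ 1 / N := fun N => by positivity
    have a1 : ∑ N ∈ T₁ ∪ T₂ ∪ T₃, (1 : ℝ) / N ≤ ∑ N ∈ T₁ ∪ T₂, (1 : ℝ) / N + ∑ N ∈ T₃, (1 : ℝ) / N := by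
      rw [← sum_union_inter]
      exact le_add_of_nonneg_right (sum_nonneg fun N _ => hpos N)
    have a2 : ∑ N ∈ T₁ ∪ T₂, (1 : ℝ) / N ≤ ∑ N ∈ T₁, (1 : ℝ) / N + ∑ N ∈ T₂, (1 : ℝ) / N := by
      rw [← sum_union_inter]
      exact le_add_of_nonneg_right (sum_nonneg fun N _ => hpos N)
    linarith
  intro N hN hNT α hM y hy
  rw [mem_union, mem_union, not_or, not_or] at hNT
  obtain ⟨⟨n1, n2⟩, n3⟩ := hNT
  have hN0 : (0 : ℝ) ≤ N := Nat.cast_nonneg N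
  refine ⟨(h₁ N hN n1 α (Minor_mono (Nat.le_mul_of_pos_left R (by omega)) hM) y hy).trans
    (mul_le_mul_of_nonneg_right (min_le_left _ _) hN0), fun u v hu huv hv => ?_⟩
  -- the three exponential sums
  have b1 : ∀ i : ℕ, 1 ≤ i → i ≤ J → ‖∑ n ∈ Icc 1 y, Pd g hs n * e (i * α * n)‖ ≤ κ * N := fun i hi1 hi2 =>
    (h₁ N hN n1 (i * α) (Minor_mul i hi1 (hi2.trans (by omega)) hM) y hy).trans
      (mul_le_mul_of_nonneg_right (min_le_right _ _) hN0)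
  have b2 : ∀ i : ℕ, 1 ≤ i → i ≤ J → ‖∑ n ∈ Icc 1 y, (starRingEnd ℂ) (Pd g hs n) * e (i * α * n)‖ ≤ κ * N := by
    intro i hi1 hi2
    have := (h₂ N hN n2 (i * α) (Minor_mul i hi1 (hi2.trans (by omega)) hM) y hy).trans
      (mul_le_mul_of_nonneg_right (min_le_right _ _) hN0)
    refine le_trans (le_of_eq ?_) this
    congr 1
    refine sum_congr rfl fun n _ => ?_
    unfold Pd
    rw [map_prod]
  have b3 : ∀ i : ℕ, 1 ≤ i → i ≤ J → ‖∑ n ∈ Icc 1 y, e (i * α * n)‖ ≤ κ * N := by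
    intro i hi1 hi2
    have := (h₃ N hN n3 (i * α) (Minor_mul i hi1 (hi2.trans (by omega)) hM) y hy).trans
      (mul_le_mul_of_nonneg_right (min_le_right _ _) hN0)
    refine le_trans (le_of_eq ?_) this
    congr 1
    refine sum_congr rfl fun n _ => ?_
    unfold Pd
    simp
  -- the three weights
  set wR : ℕ → ℝ := fun n => (1 + (Pd g hs n).re) / 2 with hwR
  set wI : ℕ → ℝ := fun n => (1 + (Pd g hs n).im) / 2 with hwI
  have hre : ∀ n, |(Pd g hs n).re| ≤ 1 := fun n => (Complex.abs_re_le_norm _).trans (Pd_le hs hg n)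
  have him : ∀ n, |(Pd g hs n).im| ≤ 1 := fun n => (Complex.abs_im_le_norm _).trans (Pd_le hs hg n)
  have c1 : ∀ n, 0 ≤ wR n ∧ wR n ≤ 1 := by
    intro n
    have := abs_le.1 (hre n)
    constructor
    · show 0 ≤ (1 + (Pd g hs n).re) / 2
      linarith
    · show (1 + (Pd g hs n).re) / 2 ≤ 1
      linarith
  have c2 : ∀ n, 0 ≤ wI n ∧ wI n ≤ 1 := by
    intro n
    have := abs_le.1 (him n)
    constructor
    · show 0 ≤ (1 + (Pd g hs n).im) / 2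
      linarith
    · show (1 + (Pd g hs n).im) / 2 ≤ 1
      linarith
  have d1 : SmallSums J κ N y wR α := by
    intro i hi1 hi2
    have e1 : ∑ n ∈ Icc 1 y, (wR n : ℂ) * e (i * α * n) = (1 / 2) * ∑ n ∈ Icc 1 y, e (i * α * n) +
        (1 / 4) * ∑ n ∈ Icc 1 y, Pd g hs n * e (i * α * n) +
        (1 / 4) * ∑ n ∈ Icc 1 y, (starRingEnd ℂ) (Pd g hs n) * e (i * α * n) := by
      rw [mul_sum, mul_sum, mul_sum, ← sum_add_distrib, ← sum_add_distrib]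
      refine sum_congr rfl fun n _ => ?_
      have e2 : (wR n : ℂ) = 1 / 2 + 1 / 4 * (Pd g hs n + (starRingEnd ℂ) (Pd g hs n)) := by
        rw [Complex.add_conj]
        show (((1 + (Pd g hs n).re) / 2 : ℝ) : ℂ) = _
        push_cast
        ring
      rw [e2]
      ring
    rw [e1]
    refine (norm_add₃_le).trans ?_
    rw [norm_mul, norm_mul, norm_mul]
    have n2' : ‖(1 / 2 : ℂ)‖ = 1 / 2 := by norm_num
    have n4' : ‖(1 / 4 : ℂ)‖ = 1 / 4 := by norm_num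
    rw [n2', n4']
    have := b1 i hi1 hi2
    have := b2 i hi1 hi2
    have := b3 i hi1 hi2
    linarith
  have d2 : SmallSums J κ N y wI α := by
    intro i hi1 hi2
    have e1 : ∑ n ∈ Icc 1 y, (wI n : ℂ) * e (i * α * n) = (1 / 2) * ∑ n ∈ Icc 1 y, e (i * α * n) +
        (-Complex.I / 4) * ∑ n ∈ Icc 1 y, Pd g hs n * e (i * α * n) +
        (Complex.I / 4) * ∑ n ∈ Icc 1 y, (starRingEnd ℂ) (Pd g hs n) * e (i * α * n) := by
      rw [mul_sum, mul_sum, mul_sum, ← sum_add_distrib, ← sum_add_distrib]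
      refine sum_congr rfl fun n _ => ?_
      have e2 : (wI n : ℂ) = 1 / 2 + (-Complex.I / 4) * (Pd g hs n - (starRingEnd ℂ) (Pd g hs n)) := by
        rw [Complex.sub_conj]
        show (((1 + (Pd g hs n).im) / 2 : ℝ) : ℂ) = _
        push_cast
        have : (-Complex.I / 4) * (2 * (Pd g hs n).im * Complex.I) = (Pd g hs n).im / 2 * -(Complex.I * Complex.I) := by ring
        rw [this, Complex.I_mul_I]
        ring
      rw [e2]
      ring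
    rw [e1]
    refine (norm_add₃_le).trans ?_
    rw [norm_mul, norm_mul, norm_mul]
    have n2' : ‖(1 / 2 : ℂ)‖ = 1 / 2 := by norm_num
    have n4' : ‖(-Complex.I / 4 : ℂ)‖ = 1 / 4 := by simp
    have n5' : ‖(Complex.I / 4 : ℂ)‖ = 1 / 4 := by simp
    rw [n2', n4', n5']
    have := b1 i hi1 hi2
    have := b2 i hi1 hi2
    have := b3 i hi1 hi2
    linarith
  have d3 : SmallSums J κ N y (fun _ => 1) α := by
    intro i hi1 hi2
    refine le_trans (le_of_eq ?_) (b3 i hi1 hi2)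
    congr 1
    refine sum_congr rfl fun n _ => ?_
    rw [Complex.ofReal_one, one_mul]
  have f1 := hJ N y wR α hy c1 d1 u v hu huv hv
  have f2 := hJ N y wI α hy c2 d2 u v hu huv hv
  have f3 := hJ N y (fun _ => 1) α hy (fun _ => ⟨zero_le_one, le_rfl⟩) d3 u v hu huv hv
  set χ : ℕ → ℝ := fun n => if u ≤ Int.fract (α * n) ∧ Int.fract (α * n) < v then 1 else 0 with hχ
  set Z : ℂ := ∑ n ∈ (Icc 1 y).filter (fun n : ℕ => u ≤ Int.fract (α * n) ∧ Int.fract (α * n) < v), Pd g hs n -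
            (v - u) * ∑ n ∈ Icc 1 y, Pd g hs n with hZ
  have hZ2 : Z = ∑ n ∈ Icc 1 y, Pd g hs n * (χ n : ℂ) - (v - u) * ∑ n ∈ Icc 1 y, Pd g hs n := by
    rw [hZ, sum_filter]
    congr 1
    refine sum_congr rfl fun n _ => ?_
    show _ = Pd g hs n * (((if u ≤ Int.fract (α * n) ∧ Int.fract (α * n) < v then 1 else 0 : ℝ)) : ℂ)
    split_ifs <;> simp
  have hZre : Z.re = 2 * (∑ n ∈ Icc 1 y, wR n * χ n - (v - u) * ∑ n ∈ Icc 1 y, wR n) -
      (∑ n ∈ Icc 1 y, 1 * χ n - (v - u) * ∑ n ∈ Icc 1 y, (1 : ℝ)) := by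
    rw [hZ2]
    have e1 : ((v : ℂ) - u) = ((v - u : ℝ) : ℂ) := by push_cast; rfl
    rw [e1, Complex.sub_re, Complex.re_ofReal_mul, Complex.re_sum, Complex.re_sum]
    simp_rw [Complex.re_mul_ofReal]
    have e2 : ∑ n ∈ Icc 1 y, wR n * χ n = (1 / 2) * ∑ n ∈ Icc 1 y, 1 * χ n +
        (1 / 2) * ∑ n ∈ Icc 1 y, (Pd g hs n).re * χ n := by
      rw [mul_sum, mul_sum, ← sum_add_distrib]
      refine sum_congr rfl fun n _ => ?_
      show (1 + (Pd g hs n).re) / 2 * χ n = _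
      ring
    have e3 : ∑ n ∈ Icc 1 y, wR n = (1 / 2) * ∑ n ∈ Icc 1 y, (1 : ℝ) + (1 / 2) * ∑ n ∈ Icc 1 y, (Pd g hs n).re := by
      rw [mul_sum, mul_sum, ← sum_add_distrib]
      refine sum_congr rfl fun n _ => ?_
      show (1 + (Pd g hs n).re) / 2 = _
      ring
    rw [e2, e3]
    ring
  have hZim : Z.im = 2 * (∑ n ∈ Icc 1 y, wI n * χ n - (v - u) * ∑ n ∈ Icc 1 y, wI n) -
      (∑ n ∈ Icc 1 y, 1 * χ n - (v - u) * ∑ n ∈ Icc 1 y, (1 : ℝ)) := by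
    rw [hZ2]
    have e1 : ((v : ℂ) - u) = ((v - u : ℝ) : ℂ) := by push_cast; rfl
    rw [e1, Complex.sub_im, Complex.im_ofReal_mul, Complex.im_sum, Complex.im_sum]
    simp_rw [Complex.im_mul_ofReal]
    have e2 : ∑ n ∈ Icc 1 y, wI n * χ n = (1 / 2) * ∑ n ∈ Icc 1 y, 1 * χ n +
        (1 / 2) * ∑ n ∈ Icc 1 y, (Pd g hs n).im * χ n := by
      rw [mul_sum, mul_sum, ← sum_add_distrib]
      refine sum_congr rfl fun n _ => ?_
      show (1 + (Pd g hs n).im) / 2 * χ n = _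
      ring
    have e3 : ∑ n ∈ Icc 1 y, wI n = (1 / 2) * ∑ n ∈ Icc 1 y, (1 : ℝ) + (1 / 2) * ∑ n ∈ Icc 1 y, (Pd g hs n).im := by
      rw [mul_sum, mul_sum, ← sum_add_distrib]
      refine sum_congr rfl fun n _ => ?_
      show (1 + (Pd g hs n).im) / 2 = _
      ring
    rw [e2, e3]
    ring
  have g1 := abs_le.1 f1
  have g2 := abs_le.1 f2
  have g3 := abs_le.1 f3
  have k1 : |Z.re| ≤ ε / 2 * N := by
    rw [hZre, abs_le]
    constructor <;> linarith [g1.1, g1.2, g3.1, g3.2]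
  have k2 : |Z.im| ≤ ε / 2 * N := by
    rw [hZim, abs_le]
    constructor <;> linarith [g2.1, g2.2, g3.1, g3.2]
  exact (Complex.norm_le_abs_re_add_abs_im Z).trans (by linarith)

end Pool.Agent.V1213.CH
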